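import Mathlib
import Pool.Agent.Lib.MP_f53aaa_nt.Core

section
set_option autoImplicit false

/-! A lower bound sieve (Bonferroni inequalities) for sets of residue classes. -/

open Finset

namespace Pool.Agent.Lib.MP_f53aaa_nt.Rough

theorem base_count (M q0 b : ℕ) (hq : 0 < q0) (hb : b < q0) :
    |((((range M).filter (fun m => m % q0 = b)).card : ℝ) - (M : ℝ) / q0)| ≤ 1 := by
  have h1 : ((range M).filter (fun m => m % q0 = b)).card =
      M / q0 + if b % q0 < M % q0 then 1 else 0 := by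
    rw [← Nat.count_modEq_card M hq b, Nat.count_eq_card_filter_range]
    congr 1
    apply filter_congr
    intro m _
    unfold Nat.ModEq
    rw [Nat.mod_eq_of_lt hb]
  have hq' : (0 : ℝ) < q0 := by exact_mod_cast hq
  have h2 : (M : ℝ) / q0 = ((M / q0 : ℕ) : ℝ) + ((M % q0 : ℕ) : ℝ) / q0 := by
    rw [div_eq_iff hq'.ne', add_mul, div_mul_cancel₀ _ hq'.ne']
    have := Nat.div_add_mod M q0
    have h3 : ((M / q0 : ℕ) : ℝ) * q0 + ((M % q0 : ℕ) : ℝ) = (M : ℝ) := by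
      have h4 : (M / q0) * q0 + M % q0 = M := by rw [mul_comm]; exact this
      exact_mod_cast h4
    exact h3.symm
  have h3 : ((M % q0 : ℕ) : ℝ) / q0 < 1 := by
    rw [div_lt_one hq']
    exact_mod_cast Nat.mod_lt M hq
  have h4 : (0 : ℝ) ≤ ((M % q0 : ℕ) : ℝ) / q0 := by positivity
  rw [h1, h2, abs_le]
  push_cast
  split_ifs <;> constructor <;> linarith

theorem cnt (Ω : ℕ → Finset ℕ) (hΩ : ∀ q, ∀ r ∈ Ω q, r < q) (M : ℕ) (J : Finset ℕ) :
    ∀ (q0 b : ℕ), 0 < q0 → b < q0 → (∀ q ∈ J, q.Prime) → (∀ q ∈ J, q0.Coprime q) →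
      |((((range M).filter (fun m => m % q0 = b ∧ ∀ q ∈ J, m % q ∈ Ω q)).card : ℝ) -
        (M : ℝ) / q0 * ∏ q ∈ J, ((Ω q).card : ℝ) / q)| ≤ ∏ q ∈ J, ((Ω q).card : ℝ) := by
  classical
  induction J using Finset.induction_on with
  | empty =>
    intro q0 b hq hb _ _
    simpa using base_count M q0 b hq hb
  | insert a s ha ih =>
    intro q0 b hq hb hpr hco
    have hap : a.Prime := hpr a (mem_insert_self a s)
    have hac : q0.Coprime a := hco a (mem_insert_self a s)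
    have hsum : (((range M).filter
        (fun m => m % q0 = b ∧ ∀ q ∈ insert a s, m % q ∈ Ω q)).card : ℝ) =
        ∑ r ∈ Ω a, (((range M).filter (fun m => m % (q0 * a) =
          (Nat.chineseRemainder hac b r : ℕ) ∧ ∀ q ∈ s, m % q ∈ Ω q)).card : ℝ) := by
      rw [card_eq_sum_card_fiberwise (f := fun m => m % a) (t := Ω a)]
      · push_cast
        refine sum_congr rfl (fun r hr => ?_)
        congr 2
        ext m
        simp only [mem_filter, mem_range, mem_insert, forall_eq_or_imp]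
        have hk := (Nat.chineseRemainder hac b r).2
        have hlt : (Nat.chineseRemainder hac b r : ℕ) < q0 * a :=
          Nat.chineseRemainder_lt_mul hac b r hq.ne' hap.ne_zero
        have hkey : (m % (q0 * a) = (Nat.chineseRemainder hac b r : ℕ)) ↔
            (m % q0 = b ∧ m % a = r) := by
          have e1 : (m % (q0 * a) = (Nat.chineseRemainder hac b r : ℕ)) ↔
              m ≡ (Nat.chineseRemainder hac b r : ℕ) [MOD q0 * a] := by
            unfold Nat.ModEq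
            rw [Nat.mod_eq_of_lt hlt]
          rw [e1, ← Nat.modEq_and_modEq_iff_modEq_mul hac]
          have hk1 : (Nat.chineseRemainder hac b r : ℕ) % q0 = b := by
            have := hk.1
            unfold Nat.ModEq at this
            rw [this, Nat.mod_eq_of_lt hb]
          have hk2 : (Nat.chineseRemainder hac b r : ℕ) % a = r := by
            have := hk.2
            unfold Nat.ModEq at this
            rw [this, Nat.mod_eq_of_lt (hΩ a r hr)]
          unfold Nat.ModEq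
          rw [hk1, hk2]
        rw [hkey]
        constructor
        · rintro ⟨⟨h1, h2, h3, h4⟩, h5⟩
          exact ⟨h1, ⟨h2, h5⟩, h4⟩
        · rintro ⟨h1, ⟨h2, h5⟩, h4⟩
          exact ⟨⟨h1, h2, by rw [h5]; exact hr, h4⟩, h5⟩
      · intro m hm
        have hm' := (mem_filter.1 (mem_coe.1 hm)).2.2 a (mem_insert_self a s)
        exact hm'
    have hq0 : (0 : ℝ) < q0 := by exact_mod_cast hq
    have ha0 : (0 : ℝ) < a := by exact_mod_cast hap.pos
    have hmain : (M : ℝ) / q0 * ∏ q ∈ insert a s, ((Ω q).card : ℝ) / q =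
        ∑ r ∈ Ω a, ((M : ℝ) / ((q0 * a : ℕ) : ℝ) * ∏ q ∈ s, ((Ω q).card : ℝ) / q) := by
      rw [prod_insert ha, sum_const, nsmul_eq_mul]
      push_cast
      field_simp
    rw [hsum, hmain, ← sum_sub_distrib, prod_insert ha]
    refine (abs_sum_le_sum_abs _ _).trans ?_
    have hle : ∀ r ∈ Ω a, |((((range M).filter (fun m => m % (q0 * a) =
          (Nat.chineseRemainder hac b r : ℕ) ∧ ∀ q ∈ s, m % q ∈ Ω q)).card : ℝ) -
          (M : ℝ) / ((q0 * a : ℕ) : ℝ) * ∏ q ∈ s, ((Ω q).card : ℝ) / q)| ≤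
          ∏ q ∈ s, ((Ω q).card : ℝ) := by
      intro r _
      refine ih (q0 * a) _ (Nat.mul_pos hq hap.pos)
        (Nat.chineseRemainder_lt_mul hac b r hq.ne' hap.ne_zero)
        (fun q hq' => hpr q (mem_insert_of_mem hq')) (fun q hq' => ?_)
      refine Nat.Coprime.mul_left (hco q (mem_insert_of_mem hq')) ?_
      refine (Nat.coprime_primes hap (hpr q (mem_insert_of_mem hq'))).2 ?_
      rintro rfl
      exact ha hq'
    refine (sum_le_sum hle).trans ?_
    rw [sum_const, nsmul_eq_mul]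

theorem bonf_int (R : ℕ) (hR : R % 2 = 1) (X : ℕ) :
    (∑ k ∈ range (R + 1), ((-1) ^ k * X.choose k : ℤ)) ≤ if X = 0 then 1 else 0 := by
  rcases Nat.eq_zero_or_pos X with h | h
  · subst h
    rw [if_pos rfl, sum_eq_single 0]
    · simp
    · intro k _ hk
      rw [Nat.choose_eq_zero_of_lt (Nat.pos_of_ne_zero hk)]
      simp
    · intro h0
      simp at h0
  · obtain ⟨n, rfl⟩ : ∃ n, X = n + 1 := ⟨X - 1, by omega⟩
    rw [if_neg (by omega), Int.alternating_sum_range_choose_eq_choose]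
    have : ((-1 : ℤ)) ^ R = -1 := Odd.neg_one_pow (Nat.odd_iff.2 hR)
    rw [this]
    have := Int.natCast_nonneg (n.choose R)
    linarith

theorem bonf_set (R : ℕ) (hR : R % 2 = 1) (Q : Finset ℕ) :
    (∑ J ∈ Q.powerset, (if J.card ≤ R then ((-1 : ℝ)) ^ J.card else 0)) ≤
      if Q = ∅ then 1 else 0 := by
  have h1 := sum_powerset_apply_card (fun j => if j ≤ R then ((-1 : ℝ)) ^ j else 0) (x := Q)
  rw [h1]
  have h2 : ∑ m ∈ range (Q.card + 1), (Q.card).choose m • (if m ≤ R then ((-1 : ℝ)) ^ m else 0) =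
      ∑ k ∈ range (R + 1), ((-1) ^ k * (Q.card).choose k : ℝ) := by
    have e1 : ∑ m ∈ range (Q.card + 1),
        (Q.card).choose m • (if m ≤ R then ((-1 : ℝ)) ^ m else 0) =
        ∑ m ∈ range (Q.card + 1 + (R + 1)),
        (Q.card).choose m • (if m ≤ R then ((-1 : ℝ)) ^ m else 0) := by
      refine sum_subset (range_mono (by omega)) (fun k _ hk => ?_)
      rw [mem_range, not_lt] at hk
      rw [Nat.choose_eq_zero_of_lt (by omega), zero_smul]
    have e2 : ∑ k ∈ range (R + 1), ((-1) ^ k * (Q.card).choose k : ℝ) =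
        ∑ m ∈ range (R + 1),
        (Q.card).choose m • (if m ≤ R then ((-1 : ℝ)) ^ m else 0) := by
      refine sum_congr rfl (fun k hk => ?_)
      rw [mem_range] at hk
      rw [if_pos (by omega), nsmul_eq_mul, mul_comm]
    rw [e1, e2]
    symm
    refine sum_subset (range_mono (by omega)) (fun k _ hk => ?_)
    rw [mem_range, not_lt] at hk
    rw [if_neg (by omega), smul_zero]
  rw [h2]
  have h3 := bonf_int R hR Q.card
  have h4 : (∑ k ∈ range (R + 1), ((-1) ^ k * (Q.card).choose k : ℝ)) =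
      ((∑ k ∈ range (R + 1), ((-1) ^ k * (Q.card).choose k : ℤ) : ℤ) : ℝ) := by
    push_cast
    rfl
  rw [h4]
  have h5 : ((if Q.card = 0 then 1 else 0 : ℤ) : ℝ) = if Q = ∅ then 1 else 0 := by
    by_cases h : Q = ∅
    · rw [if_pos h, if_pos (by rw [h]; rfl)]
      norm_num
    · rw [if_neg h, if_neg (by rwa [card_eq_zero])]
      norm_num
  rw [← h5]
  exact_mod_cast h3

theorem sieve (Ω : ℕ → Finset ℕ) (hΩ : ∀ q, ∀ r ∈ Ω q, r < q) (M R : ℕ) (hR : R % 2 = 1)
    (P : Finset ℕ) (q0 b : ℕ) (hq : 0 < q0) (hb : b < q0) (hpr : ∀ q ∈ P, q.Prime)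
    (hco : ∀ q ∈ P, q0.Coprime q) :
    (M : ℝ) / q0 * ∑ J ∈ P.powerset, (if J.card ≤ R then ((-1 : ℝ)) ^ J.card else 0) *
        ∏ q ∈ J, ((Ω q).card : ℝ) / q -
      ∑ J ∈ P.powerset, (if J.card ≤ R then ∏ q ∈ J, ((Ω q).card : ℝ) else 0) ≤
    (((range M).filter (fun m => m % q0 = b ∧ ∀ q ∈ P, m % q ∉ Ω q)).card : ℝ) := by
  classical
  set A := (range M).filter (fun m => m % q0 = b) with hA
  -- pointwise
  have hpt : ∀ m ∈ A, ∑ J ∈ P.powerset, (if J.card ≤ R then ((-1 : ℝ)) ^ J.card else 0) *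
      (if ∀ q ∈ J, m % q ∈ Ω q then (1 : ℝ) else 0) ≤
      if ∀ q ∈ P, m % q ∉ Ω q then 1 else 0 := by
    intro m _
    have h1 := bonf_set R hR (P.filter (fun q => m % q ∈ Ω q))
    have h2 : ∑ J ∈ P.powerset, (if J.card ≤ R then ((-1 : ℝ)) ^ J.card else 0) *
        (if ∀ q ∈ J, m % q ∈ Ω q then (1 : ℝ) else 0) =
        ∑ J ∈ (P.filter (fun q => m % q ∈ Ω q)).powerset,
          (if J.card ≤ R then ((-1 : ℝ)) ^ J.card else 0) := by
      have h3 : (P.filter (fun q => m % q ∈ Ω q)).powerset =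
          P.powerset.filter (fun J => ∀ q ∈ J, m % q ∈ Ω q) := by
        ext J
        simp only [mem_powerset, mem_filter, subset_iff]
        constructor
        · intro h
          exact ⟨fun x hx => (h hx).1, fun x hx => (h hx).2⟩
        · rintro ⟨h, h'⟩ x hx
          exact ⟨h hx, h' x hx⟩
      rw [h3, sum_filter]
      refine sum_congr rfl (fun J _ => ?_)
      split_ifs <;> simp
    rw [h2]
    refine h1.trans (le_of_eq ?_)
    by_cases h : ∀ q ∈ P, m % q ∉ Ω q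
    · rw [if_pos h, if_pos (filter_eq_empty_iff.2 (fun {q} hq' => h q hq'))]
    · rw [if_neg h, if_neg]
      intro h'
      exact h (fun q hq' => (filter_eq_empty_iff.1 h') hq')
  have hsum := sum_le_sum hpt
  rw [sum_comm] at hsum
  have hR1 : ∑ m ∈ A, (if ∀ q ∈ P, m % q ∉ Ω q then (1 : ℝ) else 0) =
      (((range M).filter (fun m => m % q0 = b ∧ ∀ q ∈ P, m % q ∉ Ω q)).card : ℝ) := by
    rw [← sum_filter, sum_const, nsmul_eq_mul, mul_one, hA, filter_filter]
  rw [hR1] at hsum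
  refine le_trans ?_ hsum
  rw [mul_sum, ← sum_sub_distrib]
  refine sum_le_sum (fun J hJ => ?_)
  rw [mem_powerset] at hJ
  rw [← mul_sum]
  have hc : ∑ m ∈ A, (if ∀ q ∈ J, m % q ∈ Ω q then (1 : ℝ) else 0) =
      (((range M).filter (fun m => m % q0 = b ∧ ∀ q ∈ J, m % q ∈ Ω q)).card : ℝ) := by
    rw [← sum_filter, sum_const, nsmul_eq_mul, mul_one, hA, filter_filter]
  rw [hc]
  have hcnt := cnt Ω hΩ M J q0 b hq hb (fun q hq' => hpr q (hJ hq')) (fun q hq' => hco q (hJ hq'))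
  by_cases hJR : J.card ≤ R
  · rw [if_pos hJR, if_pos hJR]
    rw [abs_le] at hcnt
    rcases neg_one_pow_eq_or ℝ J.card with h | h
    · rw [h]
      linarith [hcnt.1]
    · rw [h]
      linarith [hcnt.2]
  · rw [if_neg hJR, if_neg hJR]
    simp

/-- main term -/
theorem main_term (P : Finset ℕ) (x : ℕ → ℝ) (R : ℕ) (Λ : ℝ) (h0 : ∀ q ∈ P, 0 ≤ x q)
    (h1 : ∀ q ∈ P, x q ≤ 1 / 2) (hΛ : ∑ q ∈ P, x q ≤ Λ) :
    Real.exp (-(2 * Λ)) - Real.exp (3 * Λ) / 3 ^ R ≤
      ∑ J ∈ P.powerset, (if J.card ≤ R then ((-1 : ℝ)) ^ J.card else 0) * ∏ q ∈ J, x q := by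
  have e1 : ∏ q ∈ P, (1 - x q) = ∑ J ∈ P.powerset, ((-1 : ℝ)) ^ J.card * ∏ q ∈ J, x q := by
    have : ∀ q ∈ P, (1 - x q) = 1 + (-1) * x q := fun q _ => by ring
    rw [prod_congr rfl this, prod_one_add]
    refine sum_congr rfl (fun J _ => ?_)
    rw [prod_mul_distrib, prod_const]
  have e2 : Real.exp (-(2 * Λ)) ≤ ∏ q ∈ P, (1 - x q) := by
    have h2 : Real.exp (-(2 * Λ)) ≤ Real.exp (∑ q ∈ P, (-(2 * x q))) := by
      apply Real.exp_le_exp.2
      rw [sum_neg_distrib, ← mul_sum]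
      linarith
    refine h2.trans ?_
    rw [Real.exp_sum]
    refine prod_le_prod (fun q _ => (Real.exp_pos _).le) (fun q hq => ?_)
    rw [Real.exp_neg, inv_le_comm₀ (Real.exp_pos _) (by linarith [h1 q hq])]
    have h3 := Real.add_one_le_exp (2 * x q)
    refine le_trans ?_ h3
    have hx : 0 < 1 - x q := by linarith [h1 q hq]
    rw [inv_le_iff_one_le_mul₀ hx]
    nlinarith [h0 q hq, h1 q hq, mul_nonneg (h0 q hq) (by linarith [h1 q hq] : 0 ≤ 1 / 2 - x q)]
  have e3 : ∏ q ∈ P, (1 + 3 * x q) ≤ Real.exp (3 * Λ) := by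
    have h2 : ∏ q ∈ P, (1 + 3 * x q) ≤ ∏ q ∈ P, Real.exp (3 * x q) := by
      refine prod_le_prod (fun q hq => by linarith [h0 q hq]) (fun q _ => ?_)
      have := Real.add_one_le_exp (3 * x q)
      linarith
    refine h2.trans ?_
    rw [← Real.exp_sum, ← mul_sum]
    exact Real.exp_le_exp.2 (by linarith)
  have e4 : ∏ q ∈ P, (1 + 3 * x q) = ∑ J ∈ P.powerset, 3 ^ J.card * ∏ q ∈ J, x q := by
    rw [prod_one_add]
    refine sum_congr rfl (fun J _ => ?_)
    rw [prod_mul_distrib, prod_const]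
  have e5 : ∑ J ∈ P.powerset, ((-1 : ℝ)) ^ J.card * ∏ q ∈ J, x q ≤
      ∑ J ∈ P.powerset, (if J.card ≤ R then ((-1 : ℝ)) ^ J.card else 0) * ∏ q ∈ J, x q +
      ∑ J ∈ P.powerset, (3 ^ J.card * ∏ q ∈ J, x q) / 3 ^ R := by
    rw [← sum_add_distrib]
    refine sum_le_sum (fun J hJ => ?_)
    have hp : 0 ≤ ∏ q ∈ J, x q := prod_nonneg (fun q hq => h0 q (mem_powerset.1 hJ hq))
    by_cases h : J.card ≤ R
    · rw [if_pos h]
      have : 0 ≤ (3 ^ J.card * ∏ q ∈ J, x q) / 3 ^ R := by positivity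
      linarith
    · rw [if_neg h, zero_mul, zero_add]
      have h2 : ((-1 : ℝ)) ^ J.card ≤ 1 := by
        rcases neg_one_pow_eq_or ℝ J.card with h | h <;> rw [h] <;> norm_num
      have h3 : (3 : ℝ) ^ R ≤ 3 ^ J.card := pow_le_pow_right₀ (by norm_num) (by omega)
      rw [le_div_iff₀ (by positivity)]
      calc (-1 : ℝ) ^ J.card * (∏ q ∈ J, x q) * 3 ^ R ≤ 1 * (∏ q ∈ J, x q) * 3 ^ J.card := by
            gcongr
        _ = _ := by ring
  rw [← sum_div, ← e4] at e5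
  have e6 : (∏ q ∈ P, (1 + 3 * x q)) / 3 ^ R ≤ Real.exp (3 * Λ) / 3 ^ R := by gcongr
  linarith [e1.symm ▸ e5]

/-- error term -/
theorem error_term (P : Finset ℕ) (w : ℕ → ℝ) (R : ℕ) (T : ℝ) (hT : 1 ≤ T) (h0 : ∀ q ∈ P, 0 ≤ w q)
    (hs : ∑ q ∈ P, w q ≤ T) :
    ∑ J ∈ P.powerset, (if J.card ≤ R then ∏ q ∈ J, w q else 0) ≤ 3 * T ^ R := by
  have hT0 : 0 < T := by linarith
  have e1 : ∑ J ∈ P.powerset, (if J.card ≤ R then ∏ q ∈ J, w q else 0) ≤
      ∑ J ∈ P.powerset, T ^ R * ∏ q ∈ J, (w q / T) := by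
    refine sum_le_sum (fun J hJ => ?_)
    have hp : 0 ≤ ∏ q ∈ J, w q := prod_nonneg (fun q hq => h0 q (mem_powerset.1 hJ hq))
    rw [prod_div_distrib, prod_const]
    by_cases h : J.card ≤ R
    · rw [if_pos h]
      have h3 : T ^ J.card ≤ T ^ R := pow_le_pow_right₀ hT h
      rw [← mul_div_assoc, le_div_iff₀ (by positivity)]
      nlinarith
    · rw [if_neg h]
      positivity
  refine e1.trans ?_
  rw [← mul_sum, ← prod_one_add]
  have e2 : ∏ q ∈ P, (1 + w q / T) ≤ Real.exp 1 := by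
    have h2 : ∏ q ∈ P, (1 + w q / T) ≤ ∏ q ∈ P, Real.exp (w q / T) := by
      refine prod_le_prod (fun q hq => ?_) (fun q _ => ?_)
      · have : 0 ≤ w q / T := div_nonneg (h0 q hq) hT0.le
        linarith
      · have := Real.add_one_le_exp (w q / T)
        linarith
    refine h2.trans ?_
    rw [← Real.exp_sum, ← sum_div]
    exact Real.exp_le_exp.2 (by rw [div_le_one hT0]; exact hs)
  have e3 : Real.exp 1 ≤ 3 := by
    have := Real.exp_one_lt_d9
    linarith
  have e4 : 0 < T ^ R := by positivity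
  nlinarith

end Pool.Agent.Lib.MP_f53aaa_nt.Rough
end

section
set_option autoImplicit false

/-! The residue classes of `m` for which a prime divides `8 d_m ^ 2 + 1`. -/

open Finset

namespace Pool.Agent.Lib.MP_f53aaa_nt.Rough

theorem two_ne {p : ℕ} [Fact p.Prime] (h2 : p ≠ 2) : (2 : ZMod p) ≠ 0 := by
  intro h0
  have : ((2 : ℕ) : ZMod p) = 0 := by exact_mod_cast h0
  rw [ZMod.natCast_eq_zero_iff] at this
  exact h2 ((Nat.prime_dvd_prime_iff_eq Fact.out Nat.prime_two).1 this)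

theorem pell_cast {p : ℕ} [Fact p.Prime] (s : ZMod p) (hs : s ^ 2 = 2) (m : ℕ) :
    2 * ((pell m).1 : ZMod p) = (1 + s) ^ (2 * m) + (1 - s) ^ (2 * m) ∧
    4 * s * ((pell m).2 : ZMod p) = (1 + s) ^ (2 * m) - (1 - s) ^ (2 * m) := by
  induction m with
  | zero => simp [pell]; norm_num
  | succ m ih =>
    obtain ⟨h1, h2⟩ := ih
    have e1 : (1 + s) ^ (2 * (m + 1)) = (1 + s) ^ (2 * m) * (1 + s) ^ 2 := by
      rw [← pow_add]; rfl
    have e2 : (1 - s) ^ (2 * (m + 1)) = (1 - s) ^ (2 * m) * (1 - s) ^ 2 := by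
      rw [← pow_add]; rfl
    rw [e1, e2]
    set X := (1 + s) ^ (2 * m)
    set Y := (1 - s) ^ (2 * m)
    simp only [pell]
    push_cast
    constructor
    · linear_combination 3 * h1 + 2 * s * h2 +
        (-8 * ((pell m).2 : ZMod p) - (X + Y)) * hs
    · linear_combination 3 * h2 + 2 * s * h1 - (X - Y) * hs

theorem dvd_val_of {p : ℕ} [Fact p.Prime] (s : ZMod p) (hs : s ^ 2 = 2)
    (m : ℕ) (h : (1 + s) ^ (4 * m) = -2) : p ∣ val m := by
  obtain ⟨h1, -⟩ := pell_cast s hs m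
  rw [← ZMod.natCast_eq_zero_iff]
  unfold val
  push_cast
  have hx2 : ((1 + s) ^ (2 * m)) ^ 2 = -2 := by
    rw [← h, ← pow_mul]
    congr 1
    ring
  have hx : (1 + s) ^ (2 * m) * (1 - s) ^ (2 * m) = 1 := by
    rw [← mul_pow]
    have : (1 + s) * (1 - s) = -1 := by linear_combination -hs
    rw [this, pow_mul]
    norm_num
  set X := (1 + s) ^ (2 * m)
  set Y := (1 - s) ^ (2 * m)
  linear_combination 2 * (2 * ((pell m).1 : ZMod p) + (X + Y)) * h1 + 2 * hx2 + 4 * hx +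
    Y ^ 2 * hx2 - (X * Y + 1) * hx

/-- if `(-2) ^ (2 ^ t) = 1` in `F_p` then `p` divides a Fermat number -/
theorem fermat_of {p t : ℕ} [Fact p.Prime] (ht : 1 ≤ t) (e1 : ((-2 : ZMod p)) ^ (2 ^ t) = 1) :
    ∃ i, p ∣ 2 ^ (2 ^ i) + 1 := by
  have h1 : ((2 : ZMod p)) ^ (2 ^ t) = 1 := by
    have e2 : Even (2 ^ t) := ⟨2 ^ (t - 1), by
      obtain ⟨u, rfl⟩ : ∃ u, t = u + 1 := ⟨t - 1, by omega⟩
      simp [pow_succ]
      ring⟩
    rwa [e2.neg_pow] at e1
  classical
  have hex : ∃ j, ((2 : ZMod p)) ^ (2 ^ j) = 1 := ⟨t, h1⟩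
  have hj := Nat.find_spec hex
  set j := Nat.find hex with hjdef
  have hj0 : j ≠ 0 := by
    intro h0
    rw [h0] at hj
    have : (1 : ZMod p) = 0 := by linear_combination hj
    exact one_ne_zero this
  obtain ⟨i, hi⟩ : ∃ i, j = i + 1 := ⟨j - 1, by omega⟩
  have hi' : ¬ ((2 : ZMod p)) ^ (2 ^ i) = 1 := Nat.find_min hex (by omega)
  refine ⟨i, ?_⟩
  rw [hi, pow_succ, pow_mul] at hj
  have h4 : (((2 : ZMod p)) ^ (2 ^ i) - 1) * (((2 : ZMod p)) ^ (2 ^ i) + 1) = 0 := by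
    linear_combination hj
  rcases mul_eq_zero.1 h4 with h5 | h5
  · exact absurd (sub_eq_zero.1 h5) hi'
  · rw [← ZMod.natCast_eq_zero_iff]
    push_cast
    exact h5

/-- properties of the order `o` of `(1 + √2) ^ 4` modulo a prime factor `p` of some `val m`. -/
def Ord (p o : ℕ) : Prop :=
  0 < o ∧ o ∣ p - 1 ∧
  (∀ m m' : ℕ, p ∣ val m → p ∣ val m' → (o : ℤ) ∣ (m : ℤ) - m' ∨ (o : ℤ) ∣ (m : ℤ) + m') ∧
  (∀ m m' : ℕ, p ∣ val m → (o : ℤ) ∣ (m : ℤ) - m' → p ∣ val m') ∧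
  (∀ m t : ℕ, p ∣ val m → 1 ≤ t → o ∣ 2 ^ t * m → ∃ i, p ∣ 2 ^ (2 ^ i) + 1)

theorem exists_ord (p m : ℕ) (hp : p.Prime) (h2 : p ≠ 2) (h3 : p ≠ 3) (h : p ∣ val m) :
    ∃ o, Ord p o := by
  have : Fact p.Prime := ⟨hp⟩
  obtain ⟨s, hs, -⟩ := exists_s p m h2 h3 h
  have hgg : (1 + s) ^ 4 * (1 - s) ^ 4 = 1 := by
    have : (1 + s) * (1 - s) = -1 := by linear_combination -hs
    rw [← mul_pow, this]
    norm_num
  have hgg' : (1 - s) ^ 4 * (1 + s) ^ 4 = 1 := by rw [mul_comm]; exact hgg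
  obtain ⟨g, hg1, hg2⟩ : ∃ g : (ZMod p)ˣ, (g : ZMod p) = (1 + s) ^ 4 ∧
      ((g⁻¹ : (ZMod p)ˣ) : ZMod p) = (1 - s) ^ 4 :=
    ⟨⟨(1 + s) ^ 4, (1 - s) ^ 4, hgg, hgg'⟩, rfl, rfl⟩
  -- the two cases
  have key : ∀ m', p ∣ val m' → ((g ^ (m' : ℤ) : (ZMod p)ˣ) : ZMod p) = -2 ∨
      ((g ^ (-(m' : ℤ)) : (ZMod p)ˣ) : ZMod p) = -2 := by
    intro m' hm'
    obtain ⟨s', hs', he'⟩ := exists_s p m' h2 h3 hm'
    have h4 : (s' - s) * (s' + s) = 0 := by linear_combination hs' - hs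
    rcases mul_eq_zero.1 h4 with h5 | h5
    · left
      have hss : s' = s := by linear_combination h5
      rw [zpow_natCast, Units.val_pow_eq_pow_val, hg1, ← pow_mul, ← hss]
      exact he'
    · right
      have hss : s' = -s := by linear_combination h5
      rw [zpow_neg, zpow_natCast, ← inv_pow, Units.val_pow_eq_pow_val, hg2, ← pow_mul]
      rw [hss, ← sub_eq_add_neg] at he'
      exact he'
  have keyr : ∀ m' : ℕ, (((g ^ (m' : ℤ) : (ZMod p)ˣ) : ZMod p) = -2 ∨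
      ((g ^ (-(m' : ℤ)) : (ZMod p)ˣ) : ZMod p) = -2) → p ∣ val m' := by
    intro m' hm'
    rcases hm' with h5 | h5
    · rw [zpow_natCast, Units.val_pow_eq_pow_val, hg1, ← pow_mul] at h5
      exact dvd_val_of s hs m' h5
    · rw [zpow_neg, zpow_natCast, ← inv_pow, Units.val_pow_eq_pow_val, hg2, ← pow_mul] at h5
      refine dvd_val_of (-s) (by rw [neg_sq]; exact hs) m' ?_
      rw [← sub_eq_add_neg]
      exact h5
  have hinj : ∀ a b : ℤ, ((g ^ a : (ZMod p)ˣ) : ZMod p) = -2 →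
      ((g ^ b : (ZMod p)ˣ) : ZMod p) = -2 → (orderOf g : ℤ) ∣ a - b := by
    intro a b ha hb
    rw [orderOf_dvd_iff_zpow_eq_one, zpow_sub, mul_inv_eq_one]
    ext
    rw [ha, hb]
  refine ⟨orderOf g, orderOf_pos g, orderOf_dvd_of_pow_eq_one
    (ZMod.units_pow_card_sub_one_eq_one p g), ?_, ?_, ?_⟩
  · intro m1 m2 hm1 hm2
    rcases key m1 hm1 with h1 | h1 <;> rcases key m2 hm2 with h4 | h4
    · left
      exact hinj _ _ h1 h4
    · right
      have := hinj _ _ h1 h4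
      rwa [sub_neg_eq_add] at this
    · right
      have := hinj _ _ h4 h1
      rw [sub_neg_eq_add] at this
      rwa [add_comm]
    · left
      have := hinj _ _ h4 h1
      have e : -(m2 : ℤ) - -(m1 : ℤ) = m1 - m2 := by ring
      rwa [e] at this
  · intro m1 m2 hm1 hd
    apply keyr
    have hd' : g ^ ((m1 : ℤ) - m2) = 1 := orderOf_dvd_iff_zpow_eq_one.1 hd
    have e1 : g ^ (m1 : ℤ) = g ^ (m2 : ℤ) := by
      rw [zpow_sub, mul_inv_eq_one] at hd'
      exact hd'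
    have e2 : g ^ (-(m1 : ℤ)) = g ^ (-(m2 : ℤ)) := by
      rw [zpow_neg, zpow_neg, e1]
    rw [← e1, ← e2]
    exact key m1 hm1
  · intro m1 t hm1 ht hd
    refine fermat_of (t := t) ht ?_
    obtain ⟨c, hc⟩ := hd
    rcases key m1 hm1 with h5 | h5
    · rw [← h5, ← Units.val_pow_eq_pow_val, zpow_natCast, ← pow_mul, mul_comm m1, hc, pow_mul,
        pow_orderOf_eq_one, one_pow, Units.val_one]
    · rw [← h5, ← Units.val_pow_eq_pow_val, zpow_neg, zpow_natCast, inv_pow, ← pow_mul,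
        mul_comm m1, hc, pow_mul, pow_orderOf_eq_one, one_pow, inv_one, Units.val_one]

/-- the classes modulo `q` occupied by `m` with `p ∣ val m` -/
noncomputable def omp (q p : ℕ) : Finset ℕ := by
  classical
  exact (range q).filter (fun r => ∃ m, m % q = r ∧ p ∣ val m)

theorem omp_card (q p : ℕ) (hq : 0 < q)
    (h : ∀ m m' : ℕ, p ∣ val m → p ∣ val m' → (q : ℤ) ∣ (m : ℤ) - m' ∨ (q : ℤ) ∣ (m : ℤ) + m') :
    (omp q p).card ≤ 2 := by
  classical
  rcases (omp q p).eq_empty_or_nonempty with h0 | ⟨r0, hr0⟩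
  · rw [h0]; simp
  · unfold omp at hr0
    rw [mem_filter] at hr0
    obtain ⟨-, m0, hm0, hp0⟩ := hr0
    have hsub : omp q p ⊆ {m0 % q, ((-(m0 : ℤ)) % q).toNat} := by
      intro r hr
      unfold omp at hr
      rw [mem_filter] at hr
      obtain ⟨-, m1, hm1, hp1⟩ := hr
      rw [mem_insert, mem_singleton]
      rcases h m1 m0 hp1 hp0 with h1 | h1
      · left
        rw [← hm1]
        have h2 : m0 ≡ m1 [MOD q] := (Nat.modEq_iff_dvd).2 h1
        exact h2.symm
      · right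
        rw [← hm1]
        have h2 : (-(m0 : ℤ)) % q = (m1 : ℤ) % q := by
          have h3 : (-(m0 : ℤ)) ≡ m1 [ZMOD q] := by
            rw [Int.modEq_iff_dvd, sub_neg_eq_add]
            exact h1
          exact h3
        rw [h2, ← Int.natCast_mod, Int.toNat_natCast]
    exact (card_le_card hsub).trans card_le_two

end Pool.Agent.Lib.MP_f53aaa_nt.Rough
end

section
set_option autoImplicit false

/-! The sieve applied to the numbers `8 d_m ^ 2 + 1`. -/

open Finset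

namespace Pool.Agent.Lib.MP_f53aaa_nt.Rough

open Classical in
/-- the primes that restrict `m` modulo `q` -/
noncomputable def prs (y q : ℕ) : Finset ℕ :=
  (range (y + 1)).filter (fun p => 5 ≤ p ∧ p % 2 = 1 ∧ q ∣ p - 1 ∧ ∀ m m' : ℕ,
    p ∣ val m → p ∣ val m' → (q : ℤ) ∣ (m : ℤ) - m' ∨ (q : ℤ) ∣ (m : ℤ) + m')

open Classical in
noncomputable def Om (y q : ℕ) : Finset ℕ := (prs y q).biUnion (omp q)

theorem Om_lt (y q : ℕ) : ∀ r ∈ Om y q, r < q := by
  classical
  intro r hr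
  unfold Om at hr
  rw [mem_biUnion] at hr
  obtain ⟨p, -, hp⟩ := hr
  unfold omp at hp
  exact mem_range.1 (mem_filter.1 hp).1

theorem prs_card (y q : ℕ) (hq : 0 < q) (hodd : q % 2 = 1) : (prs y q).card ≤ y / (2 * q) := by
  classical
  have h1 : (prs y q).card ≤ (Icc 1 (y / (2 * q))).card := by
    refine card_le_card_of_injOn (fun p => (p - 1) / (2 * q)) ?_ ?_
    · intro p hp
      have hp' := (mem_filter.1 (mem_coe.1 hp))
      obtain ⟨hy, h5, h2, hd, -⟩ := hp'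
      rw [mem_range] at hy
      have hco : Nat.Coprime 2 q := (Nat.coprime_two_left).2 (Nat.odd_iff.2 hodd)
      have hd2 : 2 * q ∣ p - 1 := hco.mul_dvd_of_dvd_of_dvd (by omega) hd
      simp only [coe_Icc, Set.mem_Icc]
      constructor
      · exact (Nat.one_le_div_iff (by omega)).2 (Nat.le_of_dvd (by omega) hd2)
      · exact Nat.div_le_div_right (by omega)
    · intro p hp p' hp' heq
      have hp := (mem_filter.1 (mem_coe.1 hp))
      have hp' := (mem_filter.1 (mem_coe.1 hp'))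
      obtain ⟨hy, h5, h2, hd, -⟩ := hp
      obtain ⟨hy', h5', h2', hd', -⟩ := hp'
      have hco : Nat.Coprime 2 q := (Nat.coprime_two_left).2 (Nat.odd_iff.2 hodd)
      have hd2 : 2 * q ∣ p - 1 := hco.mul_dvd_of_dvd_of_dvd (by omega) hd
      have hd2' : 2 * q ∣ p' - 1 := hco.mul_dvd_of_dvd_of_dvd (by omega) hd'
      have e1 := Nat.div_mul_cancel hd2
      have e2 := Nat.div_mul_cancel hd2'
      simp only at heq
      rw [heq] at e1
      omega
  simpa using h1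

theorem Om_card (y q : ℕ) (hq : 0 < q) (hodd : q % 2 = 1) :
    ((Om y q).card : ℝ) ≤ (y : ℝ) / q := by
  classical
  have h1 : (Om y q).card ≤ (prs y q).card * 2 := by
    refine card_biUnion_le.trans ?_
    rw [← smul_eq_mul]
    refine sum_le_card_nsmul _ _ _ (fun p hp => ?_)
    exact omp_card q p hq (mem_filter.1 hp).2.2.2.2
  have h2 := prs_card y q hq hodd
  have h3 : (Om y q).card * q ≤ y := by
    calc (Om y q).card * q ≤ (y / (2 * q)) * 2 * q := by gcongr; omega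
      _ = (y / (2 * q)) * (2 * q) := by ring
      _ ≤ y := Nat.div_mul_le_self _ _
  rw [le_div_iff₀ (by exact_mod_cast hq)]
  exact_mod_cast h3

open Classical in
theorem main (y z q0 b M : ℕ) (hy : 1 ≤ y) (hyz : 4 * y ≤ z ^ 2) (hq0 : 0 < q0) (hb : b < q0)
    (h1 : ∀ q : ℕ, q.Prime → z < q → q0.Coprime q)
    (h2 : ∀ s : ℕ, 0 < s → s ≤ y → (∀ q : ℕ, q.Prime → q ∣ s → q ≤ z) → s ∣ q0) :
    (M : ℝ) / q0 * (Real.exp (-((z : ℝ) / 2)) / 2) - 3 * ((y : ℝ) ^ 2) ^ (2 * z + 1) ≤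
    (((range M).filter (fun m => m % q0 = b ∧ ∀ p : ℕ, p.Prime → 5 ≤ p → p ≤ y → p ∣ val m →
      ∃ o, Ord p o ∧ o ∣ q0)).card : ℝ) := by
  have hz2 : 2 ≤ z := by nlinarith
  set P := (Ioc z y).filter Nat.Prime with hP
  have hPp : ∀ q ∈ P, q.Prime := fun q hq => (mem_filter.1 hq).2
  have hPz : ∀ q ∈ P, z < q ∧ q ≤ y := fun q hq => mem_Ioc.1 (mem_filter.1 hq).1
  have hPo : ∀ q ∈ P, q % 2 = 1 := by
    intro q hq
    rcases (hPp q hq).eq_two_or_odd with h | h
    · have := (hPz q hq).1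
      omega
    · exact h
  have hs := sieve (Om y) (Om_lt y) M (2 * z + 1) (by omega) P q0 b hq0 hb hPp
    (fun q hq => h1 q (hPp q hq) (hPz q hq).1)
  have hyR : (1 : ℝ) ≤ y := by exact_mod_cast hy
  have hzR : (2 : ℝ) ≤ z := by exact_mod_cast hz2
  have hyzR : 4 * (y : ℝ) ≤ (z : ℝ) ^ 2 := by exact_mod_cast hyz
  have hx : ∀ q ∈ P, ((Om y q).card : ℝ) / q ≤ y * ((q : ℝ) ^ 2)⁻¹ := by
    intro q hq
    have hq0 : (0 : ℝ) < q := by exact_mod_cast (hPp q hq).pos
    have := Om_card y q (hPp q hq).pos (hPo q hq)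
    rw [div_le_iff₀ hq0]
    refine this.trans (le_of_eq ?_)
    field_simp
  have hx2 : ∀ q ∈ P, ((Om y q).card : ℝ) / q ≤ 1 / 2 := by
    intro q hq
    refine (hx q hq).trans ?_
    have hqz : (z : ℝ) < q := by exact_mod_cast (hPz q hq).1
    have hq0 : (0 : ℝ) < q := by linarith
    rw [← div_eq_mul_inv, div_le_iff₀ (by positivity)]
    nlinarith
  have hL : ∑ q ∈ P, ((Om y q).card : ℝ) / q ≤ (z : ℝ) / 4 := by
    refine (sum_le_sum hx).trans ?_
    rw [← mul_sum]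
    have e1 : ∑ q ∈ P, ((q : ℝ) ^ 2)⁻¹ ≤ ((z : ℝ))⁻¹ := by
      rcases Nat.lt_or_ge y z with hlt | hge
      · have : P = ∅ := by
          rw [hP, Ioc_eq_empty (by omega), filter_empty]
        rw [this]
        simp
      · calc ∑ q ∈ P, ((q : ℝ) ^ 2)⁻¹ ≤ ∑ q ∈ Ioc z y, ((q : ℝ) ^ 2)⁻¹ :=
              sum_le_sum_of_subset_of_nonneg (filter_subset _ _) (fun _ _ _ => by positivity)
          _ ≤ ((z : ℝ))⁻¹ - ((y : ℝ))⁻¹ := sum_Ioc_inv_sq_le_sub (by omega) hge
          _ ≤ _ := by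
            have : (0 : ℝ) ≤ ((y : ℝ))⁻¹ := by positivity
            linarith
    calc (y : ℝ) * ∑ q ∈ P, ((q : ℝ) ^ 2)⁻¹ ≤ y * ((z : ℝ))⁻¹ := by gcongr
      _ ≤ (z : ℝ) / 4 := by
        rw [← div_eq_mul_inv, div_le_iff₀ (by linarith)]
        nlinarith
  have hmt := main_term P (fun q => ((Om y q).card : ℝ) / q) (2 * z + 1) ((z : ℝ) / 4)
    (fun q _ => by positivity) hx2 hL
  have het := error_term P (fun q => ((Om y q).card : ℝ)) (2 * z + 1) ((y : ℝ) ^ 2)
    (by nlinarith) (fun q _ => by positivity) (by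
      have e1 : ∀ q ∈ P, ((Om y q).card : ℝ) ≤ y := by
        intro q hq
        refine (Om_card y q (hPp q hq).pos (hPo q hq)).trans ?_
        have : (1 : ℝ) ≤ q := by exact_mod_cast (hPp q hq).one_lt.le
        exact div_le_self (by linarith) this
      refine (sum_le_sum e1).trans ?_
      rw [sum_const, nsmul_eq_mul]
      have e2 : P.card ≤ y := by
        refine (card_filter_le _ _).trans ?_
        rw [Nat.card_Ioc]
        omega
      have e3 : (P.card : ℝ) ≤ y := by exact_mod_cast e2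
      nlinarith)
  have hexp : Real.exp (-((z : ℝ) / 2)) / 2 ≤
      Real.exp (-(2 * ((z : ℝ) / 4))) - Real.exp (3 * ((z : ℝ) / 4)) / 3 ^ (2 * z + 1) := by
    have e0 : -(2 * ((z : ℝ) / 4)) = -((z : ℝ) / 2) := by ring
    rw [e0]
    have e1 : Real.exp (3 * ((z : ℝ) / 4)) / 3 ^ (2 * z + 1) ≤ Real.exp (-((z : ℝ) / 2)) / 2 := by
      rw [div_le_div_iff₀ (by positivity) (by norm_num)]
      have e2 : Real.exp (3 * ((z : ℝ) / 4)) =
          Real.exp (-((z : ℝ) / 2)) * Real.exp (5 * ((z : ℝ) / 4)) := by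
        rw [← Real.exp_add]
        congr 1
        ring
      have e3 : Real.exp (5 * ((z : ℝ) / 4)) ≤ 3 ^ (2 * z) := by
        have e4 : Real.exp (5 * ((z : ℝ) / 4)) ≤ Real.exp (((2 * z : ℕ) : ℝ) * 1) := by
          apply Real.exp_le_exp.2
          push_cast
          linarith
        refine e4.trans ?_
        rw [Real.exp_nat_mul]
        have := Real.exp_one_lt_d9
        exact pow_le_pow_left₀ (Real.exp_pos _).le (by linarith) _
      rw [e2, mul_assoc]
      refine mul_le_mul_of_nonneg_left ?_ (Real.exp_pos _).le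
      rw [pow_succ]
      have : (0 : ℝ) < 3 ^ (2 * z) := by positivity
      nlinarith
    linarith
  have hfin : (M : ℝ) / q0 * (Real.exp (-((z : ℝ) / 2)) / 2) - 3 * ((y : ℝ) ^ 2) ^ (2 * z + 1) ≤
      (((range M).filter (fun m => m % q0 = b ∧ ∀ q ∈ P, m % q ∉ Om y q)).card : ℝ) := by
    refine le_trans ?_ hs
    have e1 : (M : ℝ) / q0 * (Real.exp (-((z : ℝ) / 2)) / 2) ≤
        (M : ℝ) / q0 * ∑ J ∈ P.powerset, (if J.card ≤ 2 * z + 1 then ((-1 : ℝ)) ^ J.card else 0) *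
        ∏ q ∈ J, ((Om y q).card : ℝ) / q :=
      mul_le_mul_of_nonneg_left (hexp.trans hmt) (by positivity)
    linarith
  refine hfin.trans ?_
  have hsub : (range M).filter (fun m => m % q0 = b ∧ ∀ q ∈ P, m % q ∉ Om y q) ⊆
      (range M).filter (fun m => m % q0 = b ∧ ∀ p : ℕ, p.Prime → 5 ≤ p → p ≤ y → p ∣ val m →
      ∃ o, Ord p o ∧ o ∣ q0) := by
    intro m hm
    rw [mem_filter] at hm ⊢
    obtain ⟨hmM, hmb, hmP⟩ := hm
    refine ⟨hmM, hmb, fun p hp h5 hpy hpm => ?_⟩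
    obtain ⟨o, ho⟩ := exists_ord p m hp (by omega) (by omega) hpm
    refine ⟨o, ho, ?_⟩
    have hole : o ≤ p - 1 := Nat.le_of_dvd (by omega) ho.2.1
    refine h2 o ho.1 (by omega) (fun q hq hqo => ?_)
    by_contra hlt
    have hqo' : q ≤ o := Nat.le_of_dvd ho.1 hqo
    have hqP : q ∈ P := mem_filter.2 ⟨mem_Ioc.2 ⟨by omega, by omega⟩, hq⟩
    refine hmP q hqP ?_
    unfold Om
    rw [mem_biUnion]
    refine ⟨p, ?_, ?_⟩
    · unfold prs
      rw [mem_filter, mem_range]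
      refine ⟨by omega, h5, ?_, hqo.trans ho.2.1, fun m1 m2 hm1 hm2 => ?_⟩
      · rcases hp.eq_two_or_odd with h | h
        · omega
        · exact h
      · have hqZ : (q : ℤ) ∣ (o : ℤ) := Int.natCast_dvd_natCast.2 hqo
        rcases ho.2.2.1 m1 m2 hm1 hm2 with h | h
        · exact Or.inl (hqZ.trans h)
        · exact Or.inr (hqZ.trans h)
    · unfold omp
      rw [mem_filter, mem_range]
      exact ⟨Nat.mod_lt _ hq.pos, m, rfl, hpm⟩
  exact_mod_cast card_le_card hsub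

/-- smooth numbers divide a power of the primorial -/
theorem smooth_dvd (y z s : ℕ) (hs : 0 < s) (hsy : s ≤ y)
    (h : ∀ q : ℕ, q.Prime → q ∣ s → q ≤ z) : s ∣ (primorial z) ^ (Nat.log 2 y + 1) := by
  have h1 : s = ∏ q ∈ s.primeFactors, q ^ s.factorization q := by
    conv_lhs => rw [← Nat.prod_factorization_pow_eq_self hs.ne']
    rfl
  rw [h1]
  have h2 : ∏ q ∈ s.primeFactors, q ^ s.factorization q ∣
      ∏ q ∈ s.primeFactors, q ^ (Nat.log 2 y + 1) := by
    refine prod_dvd_prod_of_dvd _ _ (fun q hq => pow_dvd_pow q ?_)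
    have hqp := Nat.prime_of_mem_primeFactors hq
    have h3 : q ^ s.factorization q ≤ s := Nat.ordProj_le q hs.ne'
    have h4 : 2 ^ s.factorization q ≤ q ^ s.factorization q :=
      Nat.pow_le_pow_left hqp.two_le _
    have h5 : y < 2 ^ (Nat.log 2 y + 1) := Nat.lt_pow_succ_log_self (by norm_num) y
    have h6 : 2 ^ s.factorization q < 2 ^ (Nat.log 2 y + 1) := by omega
    exact ((Nat.pow_lt_pow_iff_right (by norm_num)).1 h6).le
  refine h2.trans ?_
  rw [prod_pow]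
  refine pow_dvd_pow_of_dvd ?_ _
  unfold primorial
  refine prod_dvd_prod_of_subset _ _ _ (fun q hq => ?_)
  have hqp := Nat.prime_of_mem_primeFactors hq
  rw [mem_filter, mem_range]
  exact ⟨Nat.lt_succ_of_le (h q hqp (Nat.dvd_of_mem_primeFactors hq)), hqp⟩

theorem primorial_coprime (z q : ℕ) (hq : q.Prime) (hzq : z < q) : (primorial z).Coprime q := by
  unfold primorial
  refine Nat.Coprime.prod_left (fun r hr => ?_)
  rw [mem_filter, mem_range] at hr
  refine (Nat.coprime_primes hr.2 hq).2 ?_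
  omega

theorem primorial_pos' (z : ℕ) : 0 < primorial z := primorial_pos z

theorem two_dvd_primorial (z : ℕ) (hz : 2 ≤ z) : 2 ∣ primorial z := by
  unfold primorial
  refine dvd_prod_of_mem _ ?_
  rw [mem_filter, mem_range]
  exact ⟨by omega, Nat.prime_two⟩

end Pool.Agent.Lib.MP_f53aaa_nt.Rough
end
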