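import Mathlib
import Pool.Agent.Lib.MP_f53aaa_nt.Rough.Main

section
set_option autoImplicit false

/-! The choice of the parameters. -/

open Filter

namespace Pool.Agent.Lib.MP_f53aaa_nt.Rough

theorem ev (δ : ℝ) (hδ : 0 < δ) (hδ1 : δ ≤ 1) (C : ℕ) :
    ∀ᶠ L : ℝ in atTop, 1 ≤ L ∧ Real.log L ≤ L ^ (δ / 4) ∧ 200 / δ ≤ L ^ (δ / 4) ∧
      (C : ℝ) ^ 2 + 1 ≤ L ∧ Real.log (2 * C) + 2 ≤ L ^ (1 - δ / 4) ∧ 4 / δ ≤ L := by
  have h1 : ∀ᶠ L : ℝ in atTop, Real.log L ≤ L ^ (δ / 4) := by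
    have h := (isLittleO_log_rpow_atTop (r := δ / 4) (by positivity)).bound
      (c := 1) (by norm_num)
    filter_upwards [h, eventually_ge_atTop (1 : ℝ)] with L hL hL1
    rw [one_mul, Real.norm_of_nonneg (Real.log_nonneg hL1), Real.norm_of_nonneg (by positivity)]
      at hL
    exact hL
  have h2 := (tendsto_rpow_atTop (y := δ / 4) (by positivity)).eventually_ge_atTop (200 / δ)
  have h3 := (tendsto_rpow_atTop (y := 1 - δ / 4) (by linarith)).eventually_ge_atTop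
    (Real.log (2 * C) + 2)
  filter_upwards [eventually_ge_atTop (1 : ℝ), h1, h2, eventually_ge_atTop ((C : ℝ) ^ 2 + 1), h3,
    eventually_ge_atTop (4 / δ)] with L a1 a2 a3 a4 a5 a6
  exact ⟨a1, a2, a3, a4, a5, a6⟩

theorem asym (δ : ℝ) (hδ : 0 < δ) (hδ1 : δ ≤ 1) (C : ℕ) (hC : 0 < C) :
    ∃ M0 : ℕ, ∀ M : ℕ, M0 ≤ M → ∀ y z : ℕ, y = ⌊(Real.log M) ^ (2 - δ)⌋₊ →
      z = 2 * (Nat.sqrt y + 1) →
      1 ≤ y ∧ 4 * y ≤ z ^ 2 ∧ C ≤ z ∧ (M : ℝ) ^ (1 - δ) ≤
        (M : ℝ) / (((primorial z) ^ (Nat.log 2 y + 1) * C : ℕ) : ℝ) *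
          (Real.exp (-((z : ℝ) / 2)) / 2) - 3 * ((y : ℝ) ^ 2) ^ (2 * z + 1) := by
  have h := (Real.tendsto_log_atTop.comp tendsto_natCast_atTop_atTop).eventually
    (ev δ hδ hδ1 C)
  obtain ⟨M1, hM1⟩ := eventually_atTop.1 h
  refine ⟨max M1 1, fun M hM y z hy hz => ?_⟩
  obtain ⟨c1, c2, c3, c4, c5, c6⟩ := hM1 M (le_trans (le_max_left _ _) hM)
  simp only [Function.comp] at c1 c2 c3 c4 c5 c6
  have hMpos : (0 : ℝ) < M := by
    have : 0 < M := lt_of_lt_of_le (by norm_num) (le_trans (le_max_right M1 1) hM)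
    exact_mod_cast this
  set L := Real.log (M : ℝ) with hL
  have hL0 : 0 < L := by linarith
  set A := L ^ (1 - δ / 2) with hA
  set B := L ^ (δ / 4) with hB
  set D := L ^ (1 - δ / 4) with hD
  have hAB : A * B = D := by
    rw [hA, hB, hD, ← Real.rpow_add hL0]
    congr 1
    ring
  have hDB : D * B = L := by
    rw [hB, hD, ← Real.rpow_add hL0]
    have : 1 - δ / 4 + δ / 4 = 1 := by ring
    rw [this, Real.rpow_one]
  have hAA : A ^ 2 = L ^ (2 - δ) := by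
    rw [hA, ← Real.rpow_natCast, ← Real.rpow_mul hL0.le]
    congr 1
    push_cast
    ring
  have hA1 : 1 ≤ A := Real.one_le_rpow c1 (by linarith)
  have hD1 : 1 ≤ D := Real.one_le_rpow c1 (by linarith)
  have hBδ : 200 ≤ B * δ := by
    rw [div_le_iff₀ hδ] at c3
    exact c3
  have hB200 : 200 ≤ B := by nlinarith
  have hLLr : L ≤ L ^ (2 - δ) := by
    calc L = L ^ (1 : ℝ) := (Real.rpow_one L).symm
      _ ≤ L ^ (2 - δ) := Real.rpow_le_rpow_of_exponent_le c1 (by linarith)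
  have hyL : (y : ℝ) ≤ L ^ (2 - δ) := by
    rw [hy]
    exact Nat.floor_le (by positivity)
  have hyC : C ^ 2 ≤ y := by
    rw [hy]
    refine Nat.le_floor ?_
    push_cast
    linarith
  have hy1 : 1 ≤ y := by
    have : 1 ≤ C ^ 2 := Nat.one_le_pow _ _ hC
    omega
  have hy1R : (1 : ℝ) ≤ y := by exact_mod_cast hy1
  have hyz : 4 * y ≤ z ^ 2 := by
    rw [hz]
    have := Nat.sqrt_lt' (m := y) (n := Nat.sqrt y + 1) |>.1 (Nat.lt_succ_self _)
    nlinarith
  have hCz : C ≤ z := by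
    have : C ≤ Nat.sqrt y := Nat.le_sqrt'.2 hyC
    omega
  refine ⟨hy1, hyz, hCz, ?_⟩
  -- bounds
  have hsq : ((Nat.sqrt y : ℕ) : ℝ) ≤ A := by
    have h1 : (Nat.sqrt y) ^ 2 ≤ y := Nat.sqrt_le' y
    have h2 : ((Nat.sqrt y : ℕ) : ℝ) ^ 2 ≤ y := by exact_mod_cast h1
    have h3 : ((Nat.sqrt y : ℕ) : ℝ) ^ 2 ≤ A ^ 2 := by rw [hAA]; linarith
    exact (pow_le_pow_iff_left₀ (by positivity) (by positivity) (by norm_num)).1 h3
  have hzA : (z : ℝ) ≤ 4 * A := by
    rw [hz]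
    push_cast
    linarith
  have hlogy : Real.log y ≤ 2 * B := by
    have h1 : Real.log y ≤ Real.log (L ^ (2 - δ)) := Real.log_le_log (by linarith) hyL
    rw [Real.log_rpow hL0] at h1
    have h2 : 0 ≤ Real.log L := Real.log_nonneg c1
    nlinarith
  have hlogy0 : 0 ≤ Real.log y := Real.log_nonneg hy1R
  have hl2 : (1 : ℝ) / 2 ≤ Real.log 2 := by
    have := Real.log_two_gt_d9
    linarith
  have hl2' : Real.log 2 ≤ 1 := by
    have := Real.log_two_lt_d9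
    linarith
  have hK : ((Nat.log 2 y + 1 : ℕ) : ℝ) ≤ 5 * B := by
    have h1 : 2 ^ (Nat.log 2 y) ≤ y := Nat.pow_log_le_self 2 (by omega)
    have h2 : ((2 : ℝ)) ^ (Nat.log 2 y) ≤ y := by exact_mod_cast h1
    have h3 : Real.log (((2 : ℝ)) ^ (Nat.log 2 y)) ≤ Real.log y :=
      Real.log_le_log (by positivity) h2
    rw [Real.log_pow] at h3
    push_cast
    have h4 : (0 : ℝ) ≤ (Nat.log 2 y : ℝ) := by positivity
    nlinarith
  have hprim : Real.log ((primorial z : ℕ) : ℝ) ≤ 2 * z := by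
    have h1 : primorial z ≤ 4 ^ z := primorial_le_four_pow z
    have h2 : ((primorial z : ℕ) : ℝ) ≤ (4 : ℝ) ^ z := by exact_mod_cast h1
    have h3 : (0 : ℝ) < ((primorial z : ℕ) : ℝ) := by exact_mod_cast primorial_pos z
    have h4 := Real.log_le_log h3 h2
    rw [Real.log_pow] at h4
    have h5 : Real.log 4 ≤ 2 := by
      have : (4 : ℝ) = 2 ^ 2 := by norm_num
      rw [this, Real.log_pow]
      push_cast
      linarith
    have h6 : (0 : ℝ) ≤ (z : ℝ) := by positivity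
    nlinarith
  have hprim0 : (0 : ℝ) < ((primorial z : ℕ) : ℝ) := by exact_mod_cast primorial_pos z
  have hC0 : (0 : ℝ) < (C : ℝ) := by exact_mod_cast hC
  have hz0 : (0 : ℝ) ≤ (z : ℝ) := by positivity
  -- first term
  have hfirst : Real.exp ((1 - δ / 2) * L) ≤
      (M : ℝ) / (((primorial z) ^ (Nat.log 2 y + 1) * C : ℕ) : ℝ) *
          (Real.exp (-((z : ℝ) / 2)) / 2) := by
    have e1 : (M : ℝ) / (((primorial z) ^ (Nat.log 2 y + 1) * C : ℕ) : ℝ) *
          (Real.exp (-((z : ℝ) / 2)) / 2) =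
        Real.exp (L - (((Nat.log 2 y + 1 : ℕ) : ℝ) * Real.log ((primorial z : ℕ) : ℝ) +
          Real.log (2 * C)) - (z : ℝ) / 2) := by
      rw [sub_eq_add_neg (L - _) ((z : ℝ) / 2), Real.exp_add, Real.exp_sub, Real.exp_add,
        Real.exp_nat_mul, Real.exp_log hprim0, hL, Real.exp_log hMpos,
        Real.exp_log (show (0 : ℝ) < 2 * C by positivity)]
      push_cast
      field_simp
    rw [e1]
    apply Real.exp_le_exp.2
    have e2 : ((Nat.log 2 y + 1 : ℕ) : ℝ) * Real.log ((primorial z : ℕ) : ℝ) ≤ 40 * D := by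
      calc ((Nat.log 2 y + 1 : ℕ) : ℝ) * Real.log ((primorial z : ℕ) : ℝ)
          ≤ (5 * B) * (2 * (4 * A)) := by
            refine mul_le_mul hK (hprim.trans (by linarith)) ?_ (by positivity)
            exact Real.log_nonneg (by exact_mod_cast primorial_pos z)
        _ = 40 * (A * B) := by ring
        _ = _ := by rw [hAB]
    have e3 : A ≤ D := by rw [← hAB]; nlinarith
    have e4 : 43 * D ≤ δ / 2 * L := by
      rw [← hDB]
      nlinarith
    nlinarith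
  -- second term
  have hsecond : 3 * ((y : ℝ) ^ 2) ^ (2 * z + 1) ≤ Real.exp (L / 4) := by
    have hy0 : (0 : ℝ) < y := by linarith
    have e1 : 3 * ((y : ℝ) ^ 2) ^ (2 * z + 1) =
        Real.exp (Real.log 3 + ((2 * (2 * z + 1) : ℕ) : ℝ) * Real.log y) := by
      rw [Real.exp_add, Real.exp_log (by norm_num), Real.exp_nat_mul, Real.exp_log hy0, ← pow_mul]
    rw [e1]
    apply Real.exp_le_exp.2
    have e2 : Real.log 3 ≤ 2 := by
      have h1 : Real.log 3 ≤ Real.log 4 := Real.log_le_log (by norm_num) (by norm_num)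
      have : (4 : ℝ) = 2 ^ 2 := by norm_num
      rw [this, Real.log_pow] at h1
      push_cast at h1
      linarith
    have e3 : ((2 * (2 * z + 1) : ℕ) : ℝ) * Real.log y ≤ (18 * A) * (2 * B) := by
      refine mul_le_mul ?_ hlogy hlogy0 (by positivity)
      push_cast
      linarith
    have e4 : (18 * A) * (2 * B) = 36 * D := by rw [← hAB]; ring
    have e5 : 38 * D ≤ L / 4 := by
      rw [← hDB]
      nlinarith
    linarith
  have hMr : (M : ℝ) ^ (1 - δ) = Real.exp ((1 - δ) * L) := by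
    rw [Real.rpow_def_of_pos hMpos, mul_comm]
  have h6 : 4 ≤ L * δ := by
    rw [div_le_iff₀ hδ] at c6
    exact c6
  have h64 : 4 ≤ L := by nlinarith
  have hexp1 : 2 ≤ Real.exp 1 := by
    have := Real.exp_one_gt_d9
    linarith
  have g1 : 2 * Real.exp ((1 - δ) * L) ≤ Real.exp ((1 - δ / 2) * L) := by
    have e1 : Real.exp ((1 - δ / 2) * L) = Real.exp (δ / 2 * L) * Real.exp ((1 - δ) * L) := by
      rw [← Real.exp_add]
      congr 1
      ring
    rw [e1]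
    have e2 : 2 ≤ Real.exp (δ / 2 * L) := by
      refine hexp1.trans (Real.exp_le_exp.2 ?_)
      nlinarith
    exact mul_le_mul_of_nonneg_right e2 (Real.exp_pos _).le
  have g2 : 2 * Real.exp (L / 4) ≤ Real.exp ((1 - δ / 2) * L) := by
    have e1 : Real.exp ((1 - δ / 2) * L) =
        Real.exp ((3 / 4 - δ / 2) * L) * Real.exp (L / 4) := by
      rw [← Real.exp_add]
      congr 1
      ring
    rw [e1]
    have e2 : 2 ≤ Real.exp ((3 / 4 - δ / 2) * L) := by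
      refine hexp1.trans (Real.exp_le_exp.2 ?_)
      nlinarith
    exact mul_le_mul_of_nonneg_right e2 (Real.exp_pos _).le
  rw [hMr]
  linarith

end Pool.Agent.Lib.MP_f53aaa_nt.Rough
end

section
set_option autoImplicit false

/-! Values of `8 d_m ^ 2 + 1` without small prime factors. -/

open Finset

namespace Pool.Agent.Lib.MP_f53aaa_nt.Rough

open Classical in
theorem values1 (δ : ℝ) (hδ : 0 < δ) (hδ1 : δ ≤ 1) : ∃ M0 : ℕ, ∀ M : ℕ, M0 ≤ M →
    (M : ℝ) ^ (1 - δ) ≤ (((range M).filter (fun m => ∀ p : ℕ, p.Prime → p ∣ val m →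
      (Real.log M) ^ (2 - δ) < p ∨ ∃ i, Exceptional p i)).card : ℝ) := by
  obtain ⟨M0, hM0⟩ := asym δ hδ hδ1 1 one_pos
  refine ⟨M0, fun M hM => ?_⟩
  obtain ⟨y, hy⟩ : ∃ y, y = ⌊(Real.log M) ^ (2 - δ)⌋₊ := ⟨_, rfl⟩
  obtain ⟨z, hz⟩ : ∃ z, z = 2 * (Nat.sqrt y + 1) := ⟨_, rfl⟩
  obtain ⟨hy1, hyz, -, hfin⟩ := hM0 M hM y z hy hz
  refine hfin.trans ?_
  have hz2 : 2 ≤ z := by omega
  rw [mul_one]
  have hq0 : 0 < primorial z ^ (Nat.log 2 y + 1) := pow_pos (primorial_pos z) _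
  obtain ⟨q0, hq0d⟩ : ∃ q0, q0 = primorial z ^ (Nat.log 2 y + 1) := ⟨_, rfl⟩
  have h2q : 2 ∣ q0 := by
    rw [hq0d]
    exact dvd_pow (two_dvd_primorial z hz2) (by omega)
  rw [← hq0d] at hq0 ⊢
  obtain ⟨t, G, hG, hT⟩ := Nat.exists_eq_two_pow_mul_odd hq0.ne'
  have hG' : G % 2 = 1 := Nat.odd_iff.1 hG
  have ht : 1 ≤ t := by
    by_contra h0
    have : t = 0 := by omega
    rw [this] at hT
    omega
  have hco : Nat.Coprime G (2 ^ t) := Nat.Coprime.pow_right _ ((Nat.coprime_two_right).2 hG)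
  have hGpos : 0 < G := Nat.pos_of_ne_zero (by rintro rfl; simp at hG')
  have hb := Nat.chineseRemainder_lt_mul hco 0 1 hGpos.ne' (by positivity)
  rw [mul_comm, ← hT] at hb
  have hm := main y z q0 _ M hy1 hyz hq0 hb
    (fun q hq hzq => by rw [hq0d]; exact Nat.Coprime.pow_left _ (primorial_coprime z q hq hzq))
    (fun s hs hsy h => by rw [hq0d]; exact smooth_dvd y z s hs hsy h)
  refine hm.trans ?_
  have hsub : (range M).filter (fun m => m % q0 = (Nat.chineseRemainder hco 0 1 : ℕ) ∧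
      ∀ p : ℕ, p.Prime → 5 ≤ p → p ≤ y → p ∣ val m → ∃ o, Ord p o ∧ o ∣ q0) ⊆
      (range M).filter (fun m => ∀ p : ℕ, p.Prime → p ∣ val m →
      (Real.log M) ^ (2 - δ) < p ∨ ∃ i, Exceptional p i) := by
    intro m hmm
    rw [mem_filter] at hmm ⊢
    obtain ⟨hmM, hmb, hmP⟩ := hmm
    refine ⟨hmM, fun p hp hpm => ?_⟩
    have hk := (Nat.chineseRemainder hco 0 1).2
    have hmod : m ≡ (Nat.chineseRemainder hco 0 1 : ℕ) [MOD G * 2 ^ t] := by
      rw [mul_comm, ← hT]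
      unfold Nat.ModEq
      rw [hmb, Nat.mod_eq_of_lt hb]
    have hGm : G ∣ m := (Nat.modEq_zero_iff_dvd).1 ((hmod.of_mul_right _).trans hk.1)
    have hmo : m % 2 = 1 := by
      have h1 : m ≡ 1 [MOD 2 ^ t] := (hmod.of_mul_left _).trans hk.2
      have h2 : m ≡ 1 [MOD 2] := h1.of_dvd (dvd_pow_self 2 (by omega))
      exact h2
    have hp2 : p ≠ 2 := by
      rintro rfl
      exact not_two m hpm
    have hp3 : p ≠ 3 := by
      rintro rfl
      exact not_three m hmo hpm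
    have hp5 : 5 ≤ p := by
      have h2 := hp.two_le
      by_contra h5
      have : p = 4 := by omega
      rw [this] at hp
      exact absurd hp (by norm_num)
    by_cases hpy : p ≤ y
    · right
      obtain ⟨o, ho, hoq⟩ := hmP p hp hp5 hpy hpm
      obtain ⟨i, hi⟩ := ho.2.2.2.2 m t hpm ht (by
        rw [hT] at hoq
        exact hoq.trans (mul_dvd_mul_left _ hGm))
      exact ⟨i, exc_of p m i hp hmo hpm hi⟩
    · left
      push Not at hpy
      rw [hy] at hpy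
      exact Nat.lt_of_floor_lt hpy
  exact_mod_cast card_le_card hsub

theorem red (δ : ℝ) (M : ℕ) (hM : 3 ≤ M) : (M : ℝ) ^ (1 - δ) ≤ (M : ℝ) ^ (1 - min δ 1) ∧
    (Real.log M) ^ (2 - δ) ≤ (Real.log M) ^ (2 - min δ 1) := by
  have h1 : (3 : ℝ) ≤ M := by exact_mod_cast hM
  have h2 : 1 ≤ Real.log M := by
    have h3 : Real.exp 1 ≤ M := by
      have := Real.exp_one_lt_d9
      linarith
    rw [Real.le_log_iff_exp_le (by linarith)]
    exact h3
  have h3 : min δ 1 ≤ δ := min_le_left _ _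
  exact ⟨Real.rpow_le_rpow_of_exponent_le (by linarith) (by linarith),
    Real.rpow_le_rpow_of_exponent_le h2 (by linarith)⟩

open Classical in
theorem values (δ : ℝ) (hδ : 0 < δ) : ∃ M0 : ℕ, ∀ M : ℕ, M0 ≤ M →
    (M : ℝ) ^ (1 - δ) ≤ (((range M).filter (fun m => ∀ p : ℕ, p.Prime → p ∣ val m →
      (Real.log M) ^ (2 - δ) < p ∨ ∃ i, Exceptional p i)).card : ℝ) := by
  obtain ⟨M0, hM0⟩ := values1 (min δ 1) (lt_min hδ one_pos) (min_le_right _ _)
  refine ⟨max M0 3, fun M hM => ?_⟩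
  obtain ⟨h1, h2⟩ := red δ M (le_trans (le_max_right _ _) hM)
  refine h1.trans ((hM0 M (le_trans (le_max_left _ _) hM)).trans ?_)
  have hsub : (range M).filter (fun m => ∀ p : ℕ, p.Prime → p ∣ val m →
      (Real.log M) ^ (2 - min δ 1) < p ∨ ∃ i, Exceptional p i) ⊆
      (range M).filter (fun m => ∀ p : ℕ, p.Prime → p ∣ val m →
      (Real.log M) ^ (2 - δ) < p ∨ ∃ i, Exceptional p i) := by
    intro m hm
    rw [mem_filter] at hm ⊢
    refine ⟨hm.1, fun p hp hpm => ?_⟩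
    rcases hm.2 p hp hpm with h | h
    · exact Or.inl (lt_of_le_of_lt h2 h)
    · exact Or.inr h
  exact_mod_cast card_le_card hsub

theorem period (n : ℕ) (hn : 0 < n) : ∃ T, 0 < T ∧ ∀ m m' : ℕ, m ≡ m' [MOD T] →
    val m ≡ val m' [MOD n] := by
  have : NeZero n := ⟨hn.ne'⟩
  let e : Equiv.Perm (ZMod n × ZMod n) :=
    { toFun := fun x => (3 * x.1 + 8 * x.2, x.1 + 3 * x.2)
      invFun := fun x => (3 * x.1 - 8 * x.2, -x.1 + 3 * x.2)
      left_inv := fun x => by ext <;> simp <;> ring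
      right_inv := fun x => by ext <;> simp <;> ring }
  have he : ∀ m : ℕ, (((pell m).1 : ZMod n), ((pell m).2 : ZMod n)) = (e ^ m) (1, 0) := by
    intro m
    induction m with
    | zero => simp [pell]
    | succ m ih =>
      rw [pow_succ', Equiv.Perm.mul_apply, ← ih]
      simp only [pell, e, Equiv.coe_fn_mk]
      push_cast
      rfl
  refine ⟨orderOf e, orderOf_pos e, fun m m' h => ?_⟩
  have h1 : e ^ m = e ^ m' := pow_eq_pow_iff_modEq.2 h
  have h2 := he m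
  rw [h1, ← he m'] at h2
  have h3 : ((pell m).1 : ZMod n) = ((pell m').1 : ZMod n) := congrArg Prod.fst h2
  rw [← ZMod.natCast_eq_natCast_iff]
  unfold val
  push_cast
  rw [h3]

theorem three_dvd (m : ℕ) (hm : m % 2 = 0) : 3 ∣ val m := by
  have h1 := (val_mod3 m).2.2.1 hm
  rw [val_eq]
  exact dvd_add (Dvd.dvd.mul_left (dvd_pow (Nat.dvd_of_mod_eq_zero h1) (by norm_num)) 64)
    (by norm_num)

open Classical in
theorem multiples1 (c : ℕ) (δ : ℝ) (hδ : 0 < δ) (hδ1 : δ ≤ 1) : ∃ M0 : ℕ, ∀ M : ℕ, M0 ≤ M →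
    (M : ℝ) ^ (1 - δ) ≤ (((range M).filter (fun m => ∃ r, val m = val c * r ∧
      ∀ p : ℕ, p.Prime → p ∣ r → (Real.log M) ^ (2 - δ) < p)).card : ℝ) := by
  have hV : 0 < val c := by unfold val; omega
  obtain ⟨T, hT, hTp⟩ := period (val c * val c) (Nat.mul_pos hV hV)
  obtain ⟨M0, hM0⟩ := asym δ hδ hδ1 T hT
  refine ⟨M0, fun M hM => ?_⟩
  obtain ⟨y, hy⟩ : ∃ y, y = ⌊(Real.log M) ^ (2 - δ)⌋₊ := ⟨_, rfl⟩
  obtain ⟨z, hz⟩ : ∃ z, z = 2 * (Nat.sqrt y + 1) := ⟨_, rfl⟩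
  obtain ⟨hy1, hyz, hTz, hfin⟩ := hM0 M hM y z hy hz
  refine hfin.trans ?_
  have hz2 : 2 ≤ z := by omega
  have hq0 : 0 < primorial z ^ (Nat.log 2 y + 1) * T :=
    Nat.mul_pos (pow_pos (primorial_pos z) _) hT
  obtain ⟨q0, hq0d⟩ : ∃ q0, q0 = primorial z ^ (Nat.log 2 y + 1) * T := ⟨_, rfl⟩
  have h2q : 2 ∣ q0 := by
    rw [hq0d]
    exact Dvd.dvd.mul_right (dvd_pow (two_dvd_primorial z hz2) (by omega)) T
  have hTq : T ∣ q0 := by
    rw [hq0d]
    exact Dvd.intro_left _ rfl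
  rw [← hq0d] at hq0 ⊢
  have hb : c % q0 < q0 := Nat.mod_lt _ hq0
  have hm := main y z q0 _ M hy1 hyz hq0 hb
    (fun q hq hzq => by
      rw [hq0d]
      refine Nat.Coprime.mul_left (Nat.Coprime.pow_left _ (primorial_coprime z q hq hzq)) ?_
      refine ((Nat.Prime.coprime_iff_not_dvd hq).2 (fun hd => ?_)).symm
      have := Nat.le_of_dvd hT hd
      omega)
    (fun s hs hsy h => by
      rw [hq0d]
      exact Dvd.dvd.mul_right (smooth_dvd y z s hs hsy h) T)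
  refine hm.trans ?_
  have hsub : (range M).filter (fun m => m % q0 = c % q0 ∧
      ∀ p : ℕ, p.Prime → 5 ≤ p → p ≤ y → p ∣ val m → ∃ o, Ord p o ∧ o ∣ q0) ⊆
      (range M).filter (fun m => ∃ r, val m = val c * r ∧
      ∀ p : ℕ, p.Prime → p ∣ r → (Real.log M) ^ (2 - δ) < p) := by
    intro m hmm
    rw [mem_filter] at hmm ⊢
    obtain ⟨hmM, hmb, hmP⟩ := hmm
    have hmod : m ≡ c [MOD q0] := hmb
    have hval : val m ≡ val c [MOD val c * val c] := hTp m c (hmod.of_dvd hTq)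
    have hdv : val c ∣ val m := by
      have h1 : val m ≡ val c [MOD val c] := hval.of_mul_right _
      exact (Nat.modEq_zero_iff_dvd).1 (h1.trans ((Nat.modEq_zero_iff_dvd).2 dvd_rfl))
    obtain ⟨r, hr⟩ := hdv
    refine ⟨hmM, r, hr, fun p hp hpr => ?_⟩
    have hr1 : r ≡ 1 [MOD val c] := by
      have h1 : val c * r ≡ val c * 1 [MOD val c * val c] := by
        rw [← hr, mul_one]
        exact hval
      exact Nat.ModEq.mul_left_cancel' hV.ne' h1
    have hpm : p ∣ val m := by rw [hr]; exact Dvd.dvd.mul_left hpr _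
    have hpc : ¬ p ∣ val c := by
      intro hpc
      have h1 : r ≡ 1 [MOD p] := hr1.of_dvd hpc
      have h2 : r ≡ 0 [MOD p] := (Nat.modEq_zero_iff_dvd).2 hpr
      have h3 : 1 ≡ 0 [MOD p] := h1.symm.trans h2
      have h4 : p ∣ 1 := (Nat.modEq_zero_iff_dvd).1 h3
      exact hp.one_lt.ne' (Nat.dvd_one.1 h4)
    have hp2 : p ≠ 2 := by
      rintro rfl
      exact not_two m hpm
    have hp3 : p ≠ 3 := by
      rintro rfl
      have h1 : m % 2 = 0 := by
        by_contra h0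
        exact not_three m (by omega) hpm
      have h2 : m ≡ c [MOD 2] := hmod.of_dvd h2q
      exact hpc (three_dvd c (by unfold Nat.ModEq at h2; omega))
    have hp5 : 5 ≤ p := by
      have h2 := hp.two_le
      by_contra h5
      have : p = 4 := by omega
      rw [this] at hp
      exact absurd hp (by norm_num)
    by_contra hlt
    have hpy : p ≤ y := by
      by_contra hpy
      push Not at hpy
      rw [hy] at hpy
      exact hlt (Nat.lt_of_floor_lt hpy)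
    obtain ⟨o, ho, hoq⟩ := hmP p hp hp5 hpy hpm
    refine hpc (ho.2.2.2.1 m c hpm ?_)
    have h1 : (q0 : ℤ) ∣ (m : ℤ) - c := (Nat.modEq_iff_dvd).1 hmod.symm
    exact (Int.natCast_dvd_natCast.2 hoq).trans h1
  exact_mod_cast card_le_card hsub

open Classical in
theorem multiples (c : ℕ) (δ : ℝ) (hδ : 0 < δ) : ∃ M0 : ℕ, ∀ M : ℕ, M0 ≤ M →
    (M : ℝ) ^ (1 - δ) ≤ (((range M).filter (fun m => ∃ r, val m = val c * r ∧
      ∀ p : ℕ, p.Prime → p ∣ r → (Real.log M) ^ (2 - δ) < p)).card : ℝ) := by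
  obtain ⟨M0, hM0⟩ := multiples1 c (min δ 1) (lt_min hδ one_pos) (min_le_right _ _)
  refine ⟨max M0 3, fun M hM => ?_⟩
  obtain ⟨h1, h2⟩ := red δ M (le_trans (le_max_right _ _) hM)
  refine h1.trans ((hM0 M (le_trans (le_max_left _ _) hM)).trans ?_)
  have hsub : (range M).filter (fun m => ∃ r, val m = val c * r ∧
      ∀ p : ℕ, p.Prime → p ∣ r → (Real.log M) ^ (2 - min δ 1) < p) ⊆
      (range M).filter (fun m => ∃ r, val m = val c * r ∧
      ∀ p : ℕ, p.Prime → p ∣ r → (Real.log M) ^ (2 - δ) < p) := by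
    intro m hm
    rw [mem_filter] at hm ⊢
    obtain ⟨h3, r, hr, h4⟩ := hm
    exact ⟨h3, r, hr, fun p hp hpr => lt_of_le_of_lt h2 (h4 p hp hpr)⟩
  exact_mod_cast card_le_card hsub

end Pool.Agent.Lib.MP_f53aaa_nt.Rough
end

section
set_option autoImplicit false

/-! Values of `8 d_m ^ 2 + 1` which avoid a given set of small primes. -/

open Finset

namespace Pool.Agent.Lib.MP_f53aaa_nt.Rough

/-- the residues `a` such that some `m = 2 a + 1` modulo `2 ^ K` has `p ∣ val m` -/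
theorem two_classes (p K i a a0 m1 m0 : ℕ) (hp : p.Prime) (hiK : i + 1 ≤ K) (hi1 : 1 ≤ i)
    (hm1 : m1 % 2 ^ K = 2 * a + 1) (hm0 : m0 % 2 ^ K = 2 * a0 + 1) (hp1 : p ∣ val m1)
    (hp0 : p ∣ val m0) (hiF : p ∣ 2 ^ (2 ^ i) + 1) :
    a % 2 ^ i = a0 % 2 ^ i ∨ a % 2 ^ i = 2 ^ i - 1 - a0 % 2 ^ i := by
  have h2K : 2 ∣ 2 ^ K := dvd_pow_self 2 (by omega)
  have hodd : m1 % 2 = 1 := by
    have : m1 % 2 ^ K % 2 = m1 % 2 := Nat.mod_mod_of_dvd m1 h2K
    rw [← this, hm1]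
    omega
  have h1 := cls p m1 m0 i hp hodd hp1 hp0 hiF hi1
  have hdv : ∀ m b : ℕ, m % 2 ^ K = 2 * b + 1 →
      ((2 ^ (i + 1) : ℕ) : ℤ) ∣ (m : ℤ) - (2 * b + 1 : ℕ) := by
    intro m b hm
    have h2 : 2 ^ (i + 1) ∣ 2 ^ K := pow_dvd_pow 2 hiK
    have h3 := Nat.div_add_mod m (2 ^ K)
    rw [hm] at h3
    refine (Int.natCast_dvd_natCast.2 h2).trans ⟨(m / 2 ^ K : ℕ), ?_⟩
    rw [← Nat.cast_mul]
    nth_rewrite 1 [← h3]
    push_cast
    ring
  have e1 := hdv m1 a hm1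
  have e0 := hdv m0 a0 hm0
  have hpi : (2 : ℤ) ^ (i + 1) = 2 * 2 ^ i := by ring
  rcases h1 with h1 | h1
  · left
    have h4 : ((2 ^ (i + 1) : ℕ) : ℤ) ∣ 2 * ((a : ℤ) - a0) := by
      have h5 := (h1.sub e1).add e0
      have h6 : (m1 : ℤ) - m0 - (m1 - (2 * a + 1 : ℕ)) + (m0 - (2 * a0 + 1 : ℕ)) =
        2 * ((a : ℤ) - a0) := by push_cast; ring
      rwa [h6] at h5
    push_cast at h4
    rw [hpi] at h4
    have h7 : (2 : ℤ) ^ i ∣ (a : ℤ) - a0 := Int.dvd_of_mul_dvd_mul_left (by norm_num) h4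
    have h8 : (a0 : ℕ) ≡ a [MOD 2 ^ i] := by
      rw [Nat.modEq_iff_dvd]
      push_cast
      exact h7
    exact h8.symm
  · right
    have h4 : ((2 ^ (i + 1) : ℕ) : ℤ) ∣ 2 * ((a : ℤ) + a0 + 1) := by
      have h5 := (h1.sub e1).sub e0
      have h6 : (m1 : ℤ) + m0 - (m1 - (2 * a + 1 : ℕ)) - (m0 - (2 * a0 + 1 : ℕ)) =
        2 * ((a : ℤ) + a0 + 1) := by push_cast; ring
      rwa [h6] at h5
    push_cast at h4
    rw [hpi] at h4
    have h7 : (2 : ℤ) ^ i ∣ (a : ℤ) + a0 + 1 := Int.dvd_of_mul_dvd_mul_left (by norm_num) h4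
    have h8 : 2 ^ i ∣ a + a0 + 1 := by
      zify
      exact h7
    have hpos : 0 < 2 ^ i := by positivity
    have hlt := Nat.mod_lt a0 hpos
    have hlt' := Nat.mod_lt a hpos
    have h9 : 2 ^ i ∣ a % 2 ^ i + a0 % 2 ^ i + 1 := by
      have h10 := Nat.div_add_mod a (2 ^ i)
      have h11 := Nat.div_add_mod a0 (2 ^ i)
      have h12 : a + a0 + 1 = 2 ^ i * (a / 2 ^ i + a0 / 2 ^ i) +
        (a % 2 ^ i + a0 % 2 ^ i + 1) := by
        nth_rewrite 1 [← h10]
        nth_rewrite 1 [← h11]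
        ring
      rw [h12] at h8
      exact (Nat.dvd_add_right (Dvd.intro _ rfl)).1 h8
    obtain ⟨c, hc⟩ := h9
    have hc1 : c = 1 := by
      have : c < 2 := by
        by_contra hc2
        have : 2 ^ i * 2 ≤ 2 ^ i * c := Nat.mul_le_mul_left _ (by omega)
        omega
      have : c ≠ 0 := by
        rintro rfl
        omega
      omega
    rw [hc1] at hc
    omega

open Classical in
/-- an odd residue class modulo `2 ^ K` in which no prime factor of a Fermat number that lies in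
`S` divides any `val m`. -/
theorem avoid (S : Finset ℕ) (hS : ∀ p ∈ S, p.Prime) (K : ℕ) (hK : 1 ≤ K)
    (hexp : ∀ p ∈ S, ∀ i, Exceptional p i → i + 1 ≤ K)
    (hsum : ∑ p ∈ S.filter (fun p => Exceptional p (idx p)), (2 : ℚ) / 2 ^ idx p < 1) :
    ∃ a < 2 ^ (K - 1), ∀ m, m % 2 ^ K = 2 * a + 1 → ∀ p ∈ S, (∃ i, p ∣ 2 ^ (2 ^ i) + 1) →
      ¬ p ∣ val m := by
  by_contra hno
  push Not at hno
  set Bad : ℕ → Finset ℕ := fun p => (Finset.range (2 ^ (K - 1))).filter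
    (fun a => ∃ m, m % 2 ^ K = 2 * a + 1 ∧ p ∣ val m) with hBad
  have hodd : ∀ a m, m % 2 ^ K = 2 * a + 1 → m % 2 = 1 := by
    intro a m hm
    have h2K : 2 ∣ 2 ^ K := dvd_pow_self 2 (by omega)
    have : m % 2 ^ K % 2 = m % 2 := Nat.mod_mod_of_dvd m h2K
    rw [← this, hm]
    omega
  have hbc : ∀ p ∈ S, Exceptional p (idx p) → (Bad p).card * 2 ^ (idx p) ≤ 2 * 2 ^ (K - 1) := by
    intro p hp hx
    rcases (Bad p).eq_empty_or_nonempty with h0 | ⟨a0, ha0⟩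
    · rw [h0]
      simp
    · obtain ⟨i, hidx⟩ : ∃ i, i = idx p := ⟨_, rfl⟩
      rw [← hidx] at hx ⊢
      have hiK : i + 1 ≤ K := hexp p hp i hx
      obtain ⟨hi9, hi4, hiF⟩ := hx
      obtain ⟨n, hn⟩ : ∃ n, K - 1 = i + n := ⟨K - 1 - i, by omega⟩
      have ha0' := ha0
      rw [hBad, Finset.mem_filter] at ha0'
      obtain ⟨-, m0, hm0, hp0⟩ := ha0'
      have hsub : Bad p ⊆ ((Finset.range (2 ^ (K - 1))).filter (fun a => a % 2 ^ i = a0 % 2 ^ i)) ∪
          ((Finset.range (2 ^ (K - 1))).filter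
            (fun a => a % 2 ^ i = (2 ^ i - 1 - a0 % 2 ^ i))) := by
        intro a ha
        have ha' := ha
        rw [hBad, Finset.mem_filter] at ha'
        obtain ⟨har, m1, hm1, hp1⟩ := ha'
        rw [Finset.mem_union, Finset.mem_filter, Finset.mem_filter]
        rcases two_classes p K i a a0 m1 m0 (hS p hp) hiK (by omega) hm1 hm0 hp1 hp0 hiF with h | h
        · exact Or.inl ⟨har, h⟩
        · exact Or.inr ⟨har, h⟩
      have hc1 : ((Finset.range (2 ^ (K - 1))).filter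
          (fun a => a % 2 ^ i = a0 % 2 ^ i)).card ≤ 2 ^ n := by
        refine card_le i n (a0 % 2 ^ i) _ ?_ ?_
        · intro a ha
          rw [Finset.mem_filter, Finset.mem_range, hn] at ha
          exact ha.1
        · intro a ha
          exact (Finset.mem_filter.1 ha).2
      have hc2 : ((Finset.range (2 ^ (K - 1))).filter
          (fun a => a % 2 ^ i = (2 ^ i - 1 - a0 % 2 ^ i))).card ≤ 2 ^ n := by
        refine card_le i n (2 ^ i - 1 - a0 % 2 ^ i) _ ?_ ?_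
        · intro a ha
          rw [Finset.mem_filter, Finset.mem_range, hn] at ha
          exact ha.1
        · intro a ha
          exact (Finset.mem_filter.1 ha).2
      have hc3 := (Finset.card_le_card hsub).trans (Finset.card_union_le _ _)
      rw [hn]
      calc (Bad p).card * 2 ^ i ≤ (2 ^ n + 2 ^ n) * 2 ^ i :=
            Nat.mul_le_mul_right _ (by omega)
        _ = 2 * 2 ^ (i + n) := by ring
  have hcov : Finset.range (2 ^ (K - 1)) ⊆
      (S.filter (fun p => Exceptional p (idx p))).biUnion Bad := by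
    intro a ha
    obtain ⟨m, hm, p, hp, hF, hpm⟩ := hno a (Finset.mem_range.1 ha)
    have hab : a ∈ Bad p := by
      rw [hBad, Finset.mem_filter]
      exact ⟨ha, m, hm, hpm⟩
    rw [Finset.mem_biUnion]
    refine ⟨p, Finset.mem_filter.2 ⟨hp, ?_⟩, hab⟩
    exact exc_of p m (idx p) (hS p hp) (hodd a m hm) hpm
      (Nat.sInf_mem (s := {i | p ∣ 2 ^ (2 ^ i) + 1}) hF)
  have h1 : 2 ^ (K - 1) ≤ ∑ p ∈ S.filter (fun p => Exceptional p (idx p)), (Bad p).card := by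
    calc 2 ^ (K - 1) = (Finset.range (2 ^ (K - 1))).card := by simp
      _ ≤ ((S.filter (fun p => Exceptional p (idx p))).biUnion Bad).card :=
        Finset.card_le_card hcov
      _ ≤ _ := Finset.card_biUnion_le
  have h2 : ((2 : ℚ) ^ (K - 1)) ≤
      (∑ p ∈ S.filter (fun p => Exceptional p (idx p)), (2 : ℚ) / 2 ^ idx p) * 2 ^ (K - 1) := by
    have h3 : ((2 : ℚ) ^ (K - 1)) ≤
        ∑ p ∈ S.filter (fun p => Exceptional p (idx p)), ((Bad p).card : ℚ) := by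
      exact_mod_cast h1
    refine h3.trans ?_
    rw [Finset.sum_mul]
    refine Finset.sum_le_sum (fun p hp => ?_)
    have h4 : (((Bad p).card : ℚ)) * 2 ^ (idx p) ≤ 2 * 2 ^ (K - 1) := by
      exact_mod_cast hbc p (Finset.mem_filter.1 hp).1 (Finset.mem_filter.1 hp).2
    rw [div_mul_eq_mul_div, le_div_iff₀ (by positivity)]
    exact h4
  have h4 : (0 : ℚ) < 2 ^ (K - 1) := by positivity
  nlinarith [h2, hsum, h4]

open Classical in
theorem sets1 (δ : ℝ) (hδ : 0 < δ) (hδ1 : δ ≤ 1) : ∃ M0 : ℕ, ∀ M : ℕ, M0 ≤ M →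
    ∀ S : Finset ℕ, (∀ p ∈ S, p.Prime ∧ (p : ℝ) ≤ (Real.log M) ^ (2 - δ)) →
    ∑ p ∈ S.filter (fun p => Exceptional p (idx p)), (2 : ℚ) / 2 ^ idx p < 1 →
    (M : ℝ) ^ (1 - δ) ≤ (((range M).filter (fun m => ∀ p ∈ S, ¬ p ∣ val m)).card : ℝ) := by
  obtain ⟨M0, hM0⟩ := asym δ hδ hδ1 1 one_pos
  refine ⟨M0, fun M hM S hS hsum => ?_⟩
  obtain ⟨y, hy⟩ : ∃ y, y = ⌊(Real.log M) ^ (2 - δ)⌋₊ := ⟨_, rfl⟩
  obtain ⟨z, hz⟩ : ∃ z, z = 2 * (Nat.sqrt y + 1) := ⟨_, rfl⟩
  obtain ⟨hy1, hyz, -, hfin⟩ := hM0 M hM y z hy hz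
  refine hfin.trans ?_
  have hz2 : 2 ≤ z := by omega
  have hSy : ∀ p ∈ S, p ≤ y := by
    intro p hp
    rw [hy]
    exact Nat.le_floor (hS p hp).2
  rw [mul_one]
  have hq0 : 0 < primorial z ^ (Nat.log 2 y + 1) := pow_pos (primorial_pos z) _
  obtain ⟨q0, hq0d⟩ : ∃ q0, q0 = primorial z ^ (Nat.log 2 y + 1) := ⟨_, rfl⟩
  have hsm : ∀ s : ℕ, 0 < s → s ≤ y → (∀ q : ℕ, q.Prime → q ∣ s → q ≤ z) → s ∣ q0 :=
    fun s hs hsy h => by rw [hq0d]; exact smooth_dvd y z s hs hsy h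
  have h2q : 2 ∣ q0 := by
    rw [hq0d]
    exact dvd_pow (two_dvd_primorial z hz2) (by omega)
  have hcoq : ∀ q : ℕ, q.Prime → z < q → q0.Coprime q :=
    fun q hq hzq => by rw [hq0d]; exact Nat.Coprime.pow_left _ (primorial_coprime z q hq hzq)
  rw [← hq0d] at hq0 ⊢
  obtain ⟨t, G, hG, hT⟩ := Nat.exists_eq_two_pow_mul_odd hq0.ne'
  have hG' : G % 2 = 1 := Nat.odd_iff.1 hG
  have ht : 1 ≤ t := by
    by_contra h0
    have : t = 0 := by omega
    rw [this] at hT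
    omega
  have hco : Nat.Coprime G (2 ^ t) := Nat.Coprime.pow_right _ ((Nat.coprime_two_right).2 hG)
  have hGpos : 0 < G := Nat.pos_of_ne_zero (by rintro rfl; simp at hG')
  obtain ⟨a, ha, hav⟩ := avoid S (fun p hp => (hS p hp).1) t ht (by
    intro p hp i hx
    obtain ⟨-, hi4, -⟩ := hx
    have hpy := hSy p hp
    have hp2 := (hS p hp).1.two_le
    have h1 : 2 ^ (i + 4) ≤ p - 1 := Nat.le_of_dvd (by omega) hi4
    have h2 : 2 ^ (i + 1) ≤ 2 ^ (i + 4) := Nat.pow_le_pow_right (by norm_num) (by omega)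
    have h3 : 2 ^ (i + 1) ∣ q0 := by
      refine hsm _ (by positivity) (by omega) (fun q hq hqd => ?_)
      have := (Nat.prime_dvd_prime_iff_eq hq Nat.prime_two).1 (hq.dvd_of_dvd_pow hqd)
      omega
    have h4 : 2 ^ (i + 1) ∣ 2 ^ t := by
      have h5 : Nat.Coprime (2 ^ (i + 1)) G :=
        Nat.Coprime.pow_left _ ((Nat.coprime_two_left).2 hG)
      rw [hT] at h3
      exact h5.dvd_of_dvd_mul_right h3
    exact (Nat.pow_dvd_pow_iff_le_right (by norm_num)).1 h4) hsum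
  have h2a : 2 * a + 1 < 2 ^ t := by
    have : 2 ^ t = 2 * 2 ^ (t - 1) := by
      obtain ⟨u, rfl⟩ : ∃ u, t = u + 1 := ⟨t - 1, by omega⟩
      simp only [Nat.add_sub_cancel]
      ring
    omega
  have hb := Nat.chineseRemainder_lt_mul hco 0 (2 * a + 1) hGpos.ne' (by positivity)
  rw [mul_comm G, ← hT] at hb
  have hm := main y z q0 _ M hy1 hyz hq0 hb hcoq hsm
  refine hm.trans ?_
  have hsub : (range M).filter (fun m => m % q0 = (Nat.chineseRemainder hco 0 (2 * a + 1) : ℕ) ∧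
      ∀ p : ℕ, p.Prime → 5 ≤ p → p ≤ y → p ∣ val m → ∃ o, Ord p o ∧ o ∣ q0) ⊆
      (range M).filter (fun m => ∀ p ∈ S, ¬ p ∣ val m) := by
    intro m hmm
    rw [mem_filter] at hmm ⊢
    obtain ⟨hmM, hmb, hmP⟩ := hmm
    refine ⟨hmM, fun p hpS hpm => ?_⟩
    have hp := (hS p hpS).1
    have hk := (Nat.chineseRemainder hco 0 (2 * a + 1)).2
    have hmod : m ≡ (Nat.chineseRemainder hco 0 (2 * a + 1) : ℕ) [MOD G * 2 ^ t] := by
      rw [mul_comm G, ← hT]
      unfold Nat.ModEq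
      rw [hmb, Nat.mod_eq_of_lt hb]
    have hGm : G ∣ m := (Nat.modEq_zero_iff_dvd).1 ((hmod.of_mul_right _).trans hk.1)
    have hm2 : m % 2 ^ t = 2 * a + 1 := by
      have h1 : m ≡ 2 * a + 1 [MOD 2 ^ t] := (hmod.of_mul_left _).trans hk.2
      unfold Nat.ModEq at h1
      rw [h1, Nat.mod_eq_of_lt h2a]
    have hmo : m % 2 = 1 := by
      have : m % 2 ^ t % 2 = m % 2 := Nat.mod_mod_of_dvd m (dvd_pow_self 2 (by omega))
      rw [← this, hm2]
      omega
    have hp2 : p ≠ 2 := by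
      rintro rfl
      exact not_two m hpm
    have hp3 : p ≠ 3 := by
      rintro rfl
      exact not_three m hmo hpm
    have hp5 : 5 ≤ p := by
      have h2 := hp.two_le
      by_contra h5
      have : p = 4 := by omega
      rw [this] at hp
      exact absurd hp (by norm_num)
    obtain ⟨o, ho, hoq⟩ := hmP p hp hp5 (hSy p hpS) hpm
    have hF := ho.2.2.2.2 m t hpm ht (by
      rw [hT] at hoq
      exact hoq.trans (mul_dvd_mul_left _ hGm))
    exact hav m hm2 p hpS hF hpm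
  exact_mod_cast card_le_card hsub

open Classical in
theorem sets (δ : ℝ) (hδ : 0 < δ) : ∃ M0 : ℕ, ∀ M : ℕ, M0 ≤ M →
    ∀ S : Finset ℕ, (∀ p ∈ S, p.Prime ∧ (p : ℝ) ≤ (Real.log M) ^ (2 - δ)) →
    ∑ p ∈ S.filter (fun p => Exceptional p (idx p)), (2 : ℚ) / 2 ^ idx p < 1 →
    (M : ℝ) ^ (1 - δ) ≤ (((range M).filter (fun m => ∀ p ∈ S, ¬ p ∣ val m)).card : ℝ) := by
  obtain ⟨M0, hM0⟩ := sets1 (min δ 1) (lt_min hδ one_pos) (min_le_right _ _)
  refine ⟨max M0 3, fun M hM S hS hsum => ?_⟩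
  obtain ⟨h1, h2⟩ := red δ M (le_trans (le_max_right _ _) hM)
  exact h1.trans (hM0 M (le_trans (le_max_left _ _) hM) S
    (fun p hp => ⟨(hS p hp).1, (hS p hp).2.trans h2⟩) hsum)

end Pool.Agent.Lib.MP_f53aaa_nt.Rough
end
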